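import Pool.Agent.Q175.DP.Poi

/-!
# Triangular kernels with levels: algebra
-/

open Filter Topology

namespace Pool.Agent.Q175.DP

noncomputable section

/-- A level function: it increases by `0` or `1` at each step. -/
def IsLevel (v : ℕ → ℕ) : Prop := ∀ i, v (i + 1) = v i ∨ v (i + 1) = v i + 1

lemma IsLevel.mono {v : ℕ → ℕ} (hv : IsLevel v) : Monotone v :=
  monotone_nat_of_le_succ fun i => by rcases hv i with h | h <;> omega

/-- Action of the triangular Toeplitz kernel `w (i' - i)` restricted to level jumps `j`. -/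
def mact (j : ℕ) (v : ℕ → ℕ) (w : ℕ → ℝ) (x : ℕ → ℝ) (i' : ℕ) : ℝ :=
  ∑ i ∈ Finset.range (i' + 1), (if v i' = v i + j then w (i' - i) else 0) * x i

/-- generator part, without the rate. -/
def qact (v : ℕ → ℕ) (x : ℕ → ℝ) : ℕ → ℝ
  | 0 => -x 0
  | i + 1 => (if v (i + 1) = v i then x i else 0) - x (i + 1)

/-- jump part, without the rate. -/
def bact (v : ℕ → ℕ) (x : ℕ → ℝ) : ℕ → ℝ
  | 0 => 0
  | i + 1 => if v (i + 1) = v i + 1 then x i else 0

/-- discrete derivative of a weight. -/
def wder (w : ℕ → ℝ) : ℕ → ℝ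
  | 0 => -w 0
  | n + 1 => w n - w (n + 1)

lemma mact_congr {j : ℕ} {v : ℕ → ℕ} {w : ℕ → ℝ} {x y : ℕ → ℝ} {i' : ℕ}
    (h : ∀ i ≤ i', x i = y i) : mact j v w x i' = mact j v w y i' := by
  unfold mact
  refine Finset.sum_congr rfl fun i hi => ?_
  rw [h i (Nat.lt_succ_iff.1 (Finset.mem_range.1 hi))]

lemma mact_wder_aux (j : ℕ) (v : ℕ → ℕ) (w x : ℕ → ℝ) (i' : ℕ) :
    mact j v (wder w) x i' =
      ∑ i ∈ Finset.range i', (if v i' = v i + j then w (i' - i - 1) else 0) * x i
        - mact j v w x i' := by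
  unfold mact
  rw [Finset.sum_range_succ, Finset.sum_range_succ (fun i => (if v i' = v i + j then
    w (i' - i) else 0) * x i), ← sub_sub, ← Finset.sum_sub_distrib, sub_eq_add_neg]
  congr 1
  · refine Finset.sum_congr rfl fun i hi => ?_
    have hi' : i < i' := Finset.mem_range.1 hi
    obtain ⟨n, hn⟩ : ∃ n, i' - i = n + 1 := ⟨i' - i - 1, by omega⟩
    rw [hn, Nat.add_sub_cancel]
    split_ifs
    · simp only [wder]; ring
    · ring
  · rw [Nat.sub_self]
    split_ifs
    · simp only [wder]; ring
    · ring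

lemma mact_qact_aux (j : ℕ) (v : ℕ → ℕ) (w x : ℕ → ℝ) (i' : ℕ) :
    mact j v w (qact v x) i' =
      ∑ i ∈ Finset.range i', (if v i' = v (i + 1) + j ∧ v (i + 1) = v i
        then w (i' - i - 1) else 0) * x i - mact j v w x i' := by
  have h1 : mact j v w (qact v x) i' = ∑ i ∈ Finset.range (i' + 1),
      (if v i' = v i + j then w (i' - i) else 0) * (qact v x i + x i) - mact j v w x i' := by
    unfold mact
    rw [← Finset.sum_sub_distrib]
    refine Finset.sum_congr rfl fun i _ => ?_
    ring
  rw [h1]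
  congr 1
  rw [Finset.sum_range_succ']
  have h2 : qact v x 0 + x 0 = 0 := by simp [qact]
  rw [h2, mul_zero, add_zero]
  refine Finset.sum_congr rfl fun i _ => ?_
  have h3 : qact v x (i + 1) + x (i + 1) = if v (i + 1) = v i then x i else 0 := by
    simp [qact]
  rw [h3, Nat.sub_sub]
  by_cases a : v i' = v (i + 1) + j <;> by_cases b : v (i + 1) = v i
  · rw [if_pos a, if_pos b, if_pos ⟨a, b⟩]
  · have c : ¬ (v i' = v (i + 1) + j ∧ v (i + 1) = v i) := fun h => b h.2
    rw [if_neg b, if_neg c]; ring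
  · have c : ¬ (v i' = v (i + 1) + j ∧ v (i + 1) = v i) := fun h => a h.1
    rw [if_neg a, if_neg c]; ring
  · have c : ¬ (v i' = v (i + 1) + j ∧ v (i + 1) = v i) := fun h => a h.1
    rw [if_neg a, if_neg c]; ring

lemma mact_bact_aux (j : ℕ) (v : ℕ → ℕ) (w x : ℕ → ℝ) (i' : ℕ) :
    mact j v w (bact v x) i' =
      ∑ i ∈ Finset.range i', (if v i' = v (i + 1) + j ∧ v (i + 1) = v i + 1
        then w (i' - i - 1) else 0) * x i := by
  unfold mact
  rw [Finset.sum_range_succ']
  simp only [bact, mul_zero, add_zero]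
  refine Finset.sum_congr rfl fun i _ => ?_
  rw [Nat.sub_sub]
  by_cases a : v i' = v (i + 1) + j <;> by_cases b : v (i + 1) = v i + 1
  · rw [if_pos a, if_pos b, if_pos ⟨a, b⟩]
  · have c : ¬ (v i' = v (i + 1) + j ∧ v (i + 1) = v i + 1) := fun h => b h.2
    rw [if_neg b, if_neg c]; ring
  · have c : ¬ (v i' = v (i + 1) + j ∧ v (i + 1) = v i + 1) := fun h => a h.1
    rw [if_neg a, if_neg c]; ring
  · have c : ¬ (v i' = v (i + 1) + j ∧ v (i + 1) = v i + 1) := fun h => a h.1
    rw [if_neg a, if_neg c]; ring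

lemma mact_wder_succ {v : ℕ → ℕ} (hv : IsLevel v) (j : ℕ) (w x : ℕ → ℝ) (i' : ℕ) :
    mact (j + 1) v (wder w) x i' =
      mact (j + 1) v w (qact v x) i' + mact j v w (bact v x) i' := by
  rw [mact_wder_aux, mact_qact_aux, mact_bact_aux, sub_add_eq_add_sub, ← Finset.sum_add_distrib]
  congr 1
  refine Finset.sum_congr rfl fun i _ => ?_
  rw [← add_mul]
  congr 1
  rcases hv i with h | h
  · by_cases a : v i' = v i + (j + 1)
    · rw [if_pos a, if_pos ⟨by omega, h⟩, if_neg (by omega), add_zero]
    · rw [if_neg a, if_neg (by omega), if_neg (by omega), add_zero]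
  · by_cases a : v i' = v i + (j + 1)
    · rw [if_pos a, if_neg (by omega), if_pos ⟨by omega, h⟩, zero_add]
    · rw [if_neg a, if_neg (by omega), if_neg (by omega), add_zero]

lemma mact_wder_zero {v : ℕ → ℕ} (hv : IsLevel v) (w x : ℕ → ℝ) (i' : ℕ) :
    mact 0 v (wder w) x i' = mact 0 v w (qact v x) i' := by
  rw [mact_wder_aux, mact_qact_aux]
  congr 1
  refine Finset.sum_congr rfl fun i hi => ?_
  have hi' : i + 1 ≤ i' := Finset.mem_range.1 hi
  have hm := hv.mono hi'
  congr 1
  rcases hv i with h | h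
  · by_cases a : v i' = v i + 0
    · rw [if_pos a, if_pos ⟨by omega, h⟩]
    · rw [if_neg a, if_neg (by omega)]
  · rw [if_neg (by omega), if_neg (by omega)]

/-- the `ℓ¹`-bound of the jump part by the generator part. -/
lemma sum_bact_le {v : ℕ → ℕ} (hv : IsLevel v) (x : ℕ → ℝ) (M : ℕ) :
    ∑ i ∈ Finset.range (M + 1), |bact v x i| + |x M| ≤
      ∑ i ∈ Finset.range (M + 1), |qact v x i| := by
  induction M with
  | zero => simp [bact, qact]
  | succ M ih =>
    rw [Finset.sum_range_succ, Finset.sum_range_succ (fun i => |qact v x i|)]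
    rcases hv M with h | h
    · have h1 : bact v x (M + 1) = 0 := by
        simp only [bact]; rw [if_neg (by omega)]
      have h2 : qact v x (M + 1) = x M - x (M + 1) := by
        simp only [qact]; rw [if_pos h]
      rw [h1, h2, abs_zero]
      have h3 : |x (M + 1)| ≤ |x M| + |x M - x (M + 1)| := by
        have := abs_sub_abs_le_abs_sub (x (M + 1)) (x M)
        rw [abs_sub_comm] at this
        linarith
      linarith
    · have h1 : bact v x (M + 1) = x M := by
        simp only [bact]; rw [if_pos h]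
      have h2 : qact v x (M + 1) = - x (M + 1) := by
        simp only [qact]; rw [if_neg (by omega)]; ring
      rw [h1, h2, abs_neg]
      linarith

/-- composition of two level-preserving kernels. -/
lemma mact_mact_zero {v : ℕ → ℕ} (hv : IsLevel v) (w₁ w₂ w₃ x : ℕ → ℝ)
    (hw : ∀ n, ∑ l ∈ Finset.range (n + 1), w₂ l * w₁ (n - l) = w₃ n) (i' : ℕ) :
    mact 0 v w₁ (mact 0 v w₂ x) i' = mact 0 v w₃ x i' := by
  unfold mact
  simp only [Finset.mul_sum, add_zero]
  rw [Finset.sum_comm' (t' := Finset.range (i' + 1)) (s' := fun i => Finset.Ico i (i' + 1))]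
  · refine Finset.sum_congr rfl fun i hi => ?_
    have hi' : i ≤ i' := Nat.lt_succ_iff.1 (Finset.mem_range.1 hi)
    rw [Finset.sum_Ico_eq_sum_range]
    by_cases a : v i' = v i
    · rw [if_pos a, ← hw, Finset.sum_mul]
      have e1 : i' + 1 - i = i' - i + 1 := by omega
      rw [e1]
      refine Finset.sum_congr rfl fun c hc => ?_
      have hc' : c ≤ i' - i := Nat.lt_succ_iff.1 (Finset.mem_range.1 hc)
      have m1 := hv.mono (show i ≤ i + c by omega)
      have m2 := hv.mono (show i + c ≤ i' by omega)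
      rw [if_pos (by omega), if_pos (by omega), Nat.add_sub_cancel_left, Nat.sub_sub]
      ring
    · rw [if_neg a, zero_mul]
      refine Finset.sum_eq_zero fun c hc => ?_
      by_cases b : v i' = v (i + c)
      · rw [if_neg (show ¬ v (i + c) = v i by omega)]; ring
      · rw [if_neg b]; ring
  · intro a b
    simp only [Finset.mem_range, Finset.mem_Ico]
    omega

/-- resolvent weights. -/
lemma mact_res {v : ℕ → ℕ} (hv : IsLevel v) {l m : ℝ} {w : ℕ → ℝ}
    (h0 : (l + m) * w 0 = 1) (h1 : ∀ n, (l + m) * w (n + 1) = m * w n) (x : ℕ → ℝ) (i' : ℕ) :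
    l * mact 0 v w x i' - m * qact v (mact 0 v w x) i' = x i' := by
  cases i' with
  | zero =>
    simp only [qact, mact]
    simp
    linear_combination x 0 * h0
  | succ i =>
    simp only [qact]
    have e1 : (l + m) * mact 0 v w x (i + 1) =
        m * (if v (i + 1) = v i then mact 0 v w x i else 0) + x (i + 1) := by
      have e2 : mact 0 v w x (i + 1) = ∑ c ∈ Finset.range (i + 1),
          (if v (i + 1) = v c + 0 then w (i + 1 - c) else 0) * x c + w 0 * x (i + 1) := by
        unfold mact
        rw [Finset.sum_range_succ]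
        simp
      rw [e2, mul_add, ← mul_assoc, h0, one_mul]
      congr 1
      rw [Finset.mul_sum]
      rcases hv i with h | h
      · rw [if_pos h]
        unfold mact
        rw [Finset.mul_sum]
        refine Finset.sum_congr rfl fun c hc => ?_
        have hc' : c ≤ i := Nat.lt_succ_iff.1 (Finset.mem_range.1 hc)
        rw [h, Nat.sub_add_comm hc']
        split_ifs
        · rw [← mul_assoc, h1]; ring
        · ring
      · rw [if_neg (by omega), mul_zero]
        refine Finset.sum_eq_zero fun c hc => ?_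
        have hc' : c ≤ i := Nat.lt_succ_iff.1 (Finset.mem_range.1 hc)
        have := hv.mono hc'
        rw [if_neg (by omega)]; ring
    linear_combination e1

/-- injectivity of `l - T` on sequences. -/
lemma res_inj {v : ℕ → ℕ} {l m : ℝ} (hlm : 0 < l + m) (z : ℕ → ℝ) (N : ℕ)
    (h : ∀ i ≤ N, l * z i - m * qact v z i = 0) : ∀ i ≤ N, z i = 0 := by
  intro i
  induction i with
  | zero =>
    intro hi
    have := h 0 hi
    simp only [qact] at this
    have h2 : (l + m) * z 0 = 0 := by linear_combination this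
    exact (mul_eq_zero.1 h2).resolve_left hlm.ne'
  | succ i ih =>
    intro hi
    have h1 := h (i + 1) hi
    simp only [qact] at h1
    rw [ih (by omega)] at h1
    have h2 : (l + m) * z (i + 1) = 0 := by
      have h3 : (if v (i + 1) = v i then (0 : ℝ) else 0) = 0 := by split_ifs <;> rfl
      rw [h3] at h1
      linear_combination h1
    exact (mul_eq_zero.1 h2).resolve_left hlm.ne'

end

end Pool.Agent.Q175.DP
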