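import Pool.Agent.Q175.DP.DPh

/-!
# The concrete chains: compactness and non-compactness
-/

open MeasureTheory Filter Topology

namespace Pool.Agent.Q175.DP

noncomputable section

/-- non-compactness from disjoint blocks. -/
lemma not_compact_of_blocks {N : ℕ → ℕ} (A : XX (Om N) →L[ℝ] XX (Om N)) {δ : ℝ} (hδ : 0 < δ)
    (h1 : ∀ᶠ k in atTop, ∃ q : Om N, q.k = k ∧ δ ≤ ‖A (bas q)‖)
    (h2 : ∀ q : Om N, ∀ k' i, k' ≠ q.k → i ≤ N k' → bl k' i (A (bas q)) = 0) :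
    ¬ IsCompactOperator A := by
  intro hA
  obtain ⟨C, hC, hCA⟩ := IsCompactOperator.image_closedBall_subset_compact
    (f := (A : XX (Om N) →ₗ[ℝ] XX (Om N))) hA 1
  rw [eventually_atTop] at h1
  obtain ⟨k₀, hk₀⟩ := h1
  have h3 : ∀ n : ℕ, ∃ q : Om N, q.k = k₀ + n ∧ δ ≤ ‖A (bas q)‖ := fun n => hk₀ _ (by omega)
  choose q hq hqδ using h3
  have h4 : ∀ n, A (bas (q n)) ∈ C := fun n => hCA ⟨bas (q n), by simp [norm_bas], rfl⟩
  obtain ⟨g, -, φ, hφ, hlim⟩ := hC.tendsto_subseq h4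
  have hg : g = 0 := by
    apply bl_ext
    intro k' i hi
    rw [map_zero]
    have h5 : Tendsto (fun n => bl k' i (A (bas (q (φ n))))) atTop (𝓝 (bl k' i g)) :=
      ((bl k' i).continuous.tendsto g).comp hlim
    have h6 : Tendsto (fun n => bl k' i (A (bas (q (φ n))))) atTop (𝓝 0) := by
      refine tendsto_const_nhds.congr' ?_
      filter_upwards [eventually_gt_atTop k'] with n hn
      refine (h2 _ k' i ?_ hi).symm
      rw [hq]
      have := hφ.le_apply (x := n)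
      omega
    exact tendsto_nhds_unique h5 h6
  have h7 : Tendsto (fun n => ‖A (bas (q (φ n)))‖) atTop (𝓝 ‖g‖) :=
    (continuous_norm.tendsto g).comp hlim
  rw [hg, norm_zero] at h7
  have h8 := ge_of_tendsto' h7 (fun n => hqδ (φ n))
  linarith

lemma Par.bl_K_bas (P : Par) (j : ℕ) {t : ℝ} (ht : 0 ≤ t) (q : Om P.N) (k i' : ℕ)
    (hi' : i' ≤ P.N k) : bl k i' (P.K j t (bas q)) =
      if q.k = k ∧ q.i ≤ i' ∧ P.v k i' = P.v k q.i + j then poi (i' - q.i) (P.m k * t) else 0 := by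
  unfold Par.K
  rw [Kop_bas, bl_kcol _ _ _ _ _ _ hi', max_eq_left ht]
  rfl

lemma Par.norm_K_bas_le (P : Par) (j : ℕ) {t : ℝ} (ht : 0 ≤ t) (q : Om P.N) :
    ‖P.K j t (bas q)‖ ≤ ∑ i' ∈ Finset.range (P.N q.k + 1),
      if q.i ≤ i' ∧ P.v q.k i' = P.v q.k q.i + j then poi (i' - q.i) (P.m q.k * t) else 0 := by
  unfold Par.K
  rw [Kop_bas, max_eq_left ht]
  refine (norm_kcol_le_sum _ _ _ _).trans (le_of_eq ?_)
  refine Finset.sum_congr rfl fun i' _ => ?_
  by_cases c : q.i ≤ i' ∧ P.v q.k i' = P.v q.k q.i + j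
  · rw [if_pos c, if_pos c]
    exact abs_of_nonneg (poi_nonneg _ (mul_nonneg (P.hm _).le ht))
  · rw [if_neg c, if_neg c]

/-- lower bound on a window. -/
lemma Par.lower (P : Par) (j k c s w : ℕ) (hc : c ≤ s) (hs : s + w ≤ P.N k)
    (h0 : P.v k (s - c) = 0) (hj : ∀ l ≤ w, P.v k (s + l) = j) {t t' : ℝ} (ht : 0 ≤ t)
    (ht' : 0 ≤ t') : ∃ q : Om P.N, q.k = k ∧
      (∑ n ∈ Finset.range (w + 1), poi (c + n) (P.m k * t) -
        ∑ n ∈ Finset.range (w + 1), poi (c + n) (P.m k * t')) ≤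
      ‖P.K j t (bas q) - P.K j t' (bas q)‖ := by
  refine ⟨⟨k, s - c, by omega⟩, rfl, ?_⟩
  refine le_trans ?_ (blockSum_le k _)
  have h1 : ∑ i ∈ (Finset.range (w + 1)).image (fun n => s + n),
      |bl k i (P.K j t (bas ⟨k, s - c, by omega⟩) - P.K j t' (bas ⟨k, s - c, by omega⟩))| ≤
      ∑ i ∈ Finset.range (P.N k + 1),
      |bl k i (P.K j t (bas ⟨k, s - c, by omega⟩) - P.K j t' (bas ⟨k, s - c, by omega⟩))| := by
    refine Finset.sum_le_sum_of_subset_of_nonneg ?_ fun _ _ _ => abs_nonneg _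
    intro i hi
    rw [Finset.mem_image] at hi
    obtain ⟨n, hn, rfl⟩ := hi
    rw [Finset.mem_range] at hn ⊢
    omega
  refine le_trans ?_ h1
  rw [Finset.sum_image (fun a _ b _ hab => by simpa using hab), ← Finset.sum_sub_distrib]
  refine Finset.sum_le_sum fun n hn => ?_
  have hn' : n ≤ w := Nat.lt_succ_iff.1 (Finset.mem_range.1 hn)
  rw [map_sub, P.bl_K_bas j ht _ k (s + n) (by omega), P.bl_K_bas j ht' _ k (s + n) (by omega)]
  dsimp only
  have h2 : (k = k ∧ s - c ≤ s + n ∧ P.v k (s + n) = P.v k (s - c) + j) :=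
    ⟨rfl, by omega, by rw [h0, hj n hn', zero_add]⟩
  rw [if_pos h2, if_pos h2]
  have h3 : s + n - (s - c) = c + n := by omega
  rw [h3]
  exact le_abs_self _

/-! ### the concrete parameters -/

/-- The level function: `2r+1` jumps right after `a`, one more jump after a window of length
`w`. -/
def lev (r a w i : ℕ) : ℕ := min (i - a) (2 * r + 1) + min (i - (a + 2 * r + 1 + w)) 1

lemma isLevel_lev (r a w : ℕ) : IsLevel (lev r a w) := by
  intro i
  unfold lev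
  omega

lemma lev_zero {r a w i : ℕ} (h : i ≤ a) : lev r a w i = 0 := by
  unfold lev; omega

lemma lev_r {r a w i : ℕ} (hr : 1 ≤ r) : lev r a w i = r → i = a + r := by
  unfold lev; omega

lemma lev_w1 {r a w l : ℕ} (h : l ≤ w) : lev r a w (a + 2 * r + 1 + l) = 2 * r + 1 := by
  unfold lev; omega

lemma lev_w2 {r a w l : ℕ} : lev r a w (a + 2 * r + 2 + w + l) = 2 * r + 2 := by
  unfold lev; omega

/-- The concrete family, rate `K⁴`, window `K³`, run-up `K⁵` where `K = k + 1`. -/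
def PP (r : ℕ) : Par where
  N := fun k => (k + 1) ^ 5 + 2 * r + 2 + (k + 1) ^ 3 + (k + 1) ^ 3
  m := fun k => ((k : ℝ) + 1) ^ 4
  v := fun k => lev r ((k + 1) ^ 5) ((k + 1) ^ 3)
  hm := fun k => by positivity
  hv := fun k => isLevel_lev _ _ _

lemma evK (C : ℝ) : ∀ᶠ k : ℕ in atTop, C ≤ (k : ℝ) + 1 := by
  have h : Tendsto (fun k : ℕ => (k : ℝ) + 1) atTop atTop :=
    tendsto_natCast_atTop_atTop.atTop_add tendsto_const_nhds
  exact h.eventually_ge_atTop C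

/-- upper bound in a block. -/
lemma upper (r : ℕ) (hr : 1 ≤ r) {t : ℝ} (ht : 0 < t) {ε : ℝ} (hε : 0 < ε) :
    ∀ᶠ k : ℕ in atTop, ∀ q : Om (PP r).N, q.k = k → ‖(PP r).K r t (bas q)‖ ≤ ε := by
  have hm : Tendsto (fun k : ℕ => ((k : ℝ) + 1) ^ 4 * t) atTop atTop := by
    have h : Tendsto (fun k : ℕ => (k : ℝ) + 1) atTop atTop :=
      tendsto_natCast_atTop_atTop.atTop_add tendsto_const_nhds
    exact ((tendsto_pow_atTop (by norm_num)).comp h).atTop_mul_const ht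
  have h1 := hm.eventually (poi_small hε)
  have h2 := hm.eventually_ge_atTop (4 / ε)
  filter_upwards [h1, h2, evK ((4 + 4 * r + 4 + 1) / t), evK 1] with k hk1 hk2 hk3 hk4 q hq
  subst hq
  have hx : 0 < ((q.k : ℝ) + 1) ^ 4 * t := by positivity
  set x : ℝ := ((q.k : ℝ) + 1) ^ 4 * t with hxdef
  refine ((PP r).norm_K_bas_le r ht.le q).trans ?_
  change ∑ i' ∈ Finset.range ((PP r).N q.k + 1),
      (if q.i ≤ i' ∧ lev r ((q.k + 1) ^ 5) ((q.k + 1) ^ 3) i' =
        lev r ((q.k + 1) ^ 5) ((q.k + 1) ^ 3) q.i + r then poi (i' - q.i) x else 0) ≤ ε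
  by_cases hi : q.i ≤ (q.k + 1) ^ 5
  · -- a single target state
    rw [lev_zero hi, zero_add]
    calc ∑ i' ∈ Finset.range ((PP r).N q.k + 1), (if q.i ≤ i' ∧
          lev r ((q.k + 1) ^ 5) ((q.k + 1) ^ 3) i' = r then poi (i' - q.i) x else 0)
        ≤ ∑ i' ∈ Finset.range ((PP r).N q.k + 1),
          (if i' = (q.k + 1) ^ 5 + r then poi (i' - q.i) x else 0) := by
          refine Finset.sum_le_sum fun i' _ => ?_
          by_cases c : q.i ≤ i' ∧ lev r ((q.k + 1) ^ 5) ((q.k + 1) ^ 3) i' = r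
          · rw [if_pos c, if_pos (lev_r hr c.2)]
          · rw [if_neg c]
            split_ifs
            · exact poi_nonneg _ hx.le
            · exact le_rfl
      _ ≤ ε := by
          rw [Finset.sum_ite_eq']
          split_ifs
          · exact hk1 _
          · exact hε.le
  · push Not at hi
    refine (sum_shift_le (fun n => poi n x) (fun n => poi_nonneg n hx.le)
      (fun i' => lev r ((q.k + 1) ^ 5) ((q.k + 1) ^ 3) i' =
        lev r ((q.k + 1) ^ 5) ((q.k + 1) ^ 3) q.i + r) q.i ((PP r).N q.k + 1)).trans ?_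
    have h3 : ∑ n ∈ Finset.range ((PP r).N q.k + 1 - q.i), poi n x ≤ x / (x / 2) ^ 2 := by
      refine cheb hx.le (by positivity) _ ?_
      intro n hn
      rw [Finset.mem_range] at hn
      have hn2 : n ≤ 2 * r + 2 + (q.k + 1) ^ 3 + (q.k + 1) ^ 3 := by
        change n < (q.k + 1) ^ 5 + 2 * r + 2 + (q.k + 1) ^ 3 + (q.k + 1) ^ 3 + 1 - q.i at hn
        omega
      have hn3 : (n : ℝ) ≤ 2 * r + 2 + ((q.k : ℝ) + 1) ^ 3 + ((q.k : ℝ) + 1) ^ 3 := by
        exact_mod_cast hn2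
      rw [abs_sub_comm]
      refine le_trans ?_ (le_abs_self _)
      rw [div_le_iff₀ ht] at hk3
      set K : ℝ := (q.k : ℝ) + 1 with hK
      have hK3 : 1 ≤ K ^ 3 := one_le_pow₀ hk4
      have hr0 : (0 : ℝ) ≤ r := Nat.cast_nonneg r
      have h5 : K ^ 3 * (4 + 4 * r + 4 + 1) ≤ x := by
        rw [hxdef]
        calc K ^ 3 * (4 + 4 * (r : ℝ) + 4 + 1) ≤ K ^ 3 * (K * t) :=
              mul_le_mul_of_nonneg_left hk3 (by positivity)
          _ = K ^ 4 * t := by ring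
      nlinarith
    refine h3.trans ?_
    rw [div_pow, div_div_eq_mul_div, div_le_iff₀ (by positivity)]
    rw [div_le_iff₀ hε] at hk2
    nlinarith

/-- compactness of `U_r(t)`. -/
lemma compact_r (r : ℕ) (hr : 1 ≤ r) {t : ℝ} (ht : 0 ≤ t) :
    IsCompactOperator ((PP r).K r t) := by
  rcases ht.lt_or_eq with h | h
  · apply compact_of_cols
    rw [Metric.tendsto_nhds]
    intro ε hε
    have h1 := upper r hr h (half_pos hε)
    rw [eventually_atTop] at h1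
    obtain ⟨k₀, hk₀⟩ := h1
    rw [eventually_cofinite]
    have h2 : Set.Finite {q : Om (PP r).N | q.k < k₀} := by
      have h3 : {q : Om (PP r).N | q.k < k₀} ⊆ ⋃ k ∈ {k | k < k₀},
          Set.range (fun i : Fin ((PP r).N k + 1) => (⟨k, i.1, i.2⟩ : Om (PP r).N)) := by
        intro q hq
        rw [Set.mem_iUnion₂]
        exact ⟨q.k, hq, ⟨q.i, q.hi⟩, rfl⟩
      exact (Set.Finite.biUnion (Set.finite_lt_nat k₀) fun k _ => Set.finite_range _).subset h3
    refine h2.subset fun q hq => ?_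
    by_contra hcon
    apply hq
    have hcon' : k₀ ≤ q.k := not_lt.1 hcon
    have := hk₀ q.k hcon' q rfl
    rw [dist_zero_right, Real.norm_of_nonneg (norm_nonneg _)]
    linarith
  · obtain ⟨r', rfl⟩ : ∃ r', r = r' + 1 := ⟨r - 1, by omega⟩
    rw [← h, Par.K_succ_zero]
    exact isCompactOperator_zero

/-- the main lower bound. -/
lemma main_lower (r e : ℕ) (he : e ≤ 1) {t t' : ℝ} (ht : 0 < t) (ht' : 0 ≤ t') (hne : t' ≠ t) :
    ∀ᶠ k : ℕ in atTop, ∃ q : Om (PP r).N, q.k = k ∧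
      1 / 2 ≤ ‖(PP r).K (2 * r + 1 + e) t (bas q) - (PP r).K (2 * r + 1 + e) t' (bas q)‖ := by
  have hd : 0 < |t - t'| := abs_pos.2 (sub_ne_zero.2 (Ne.symm hne))
  filter_upwards [evK 2, evK (64 * t), evK (16 * t'), evK t, evK ((2 * r + 6) / t),
    evK (2 / |t - t'|)] with k k1 k2 k3 k4 k5 k6
  rw [div_le_iff₀ ht] at k5
  rw [div_le_iff₀ hd] at k6
  set K : ℝ := (k : ℝ) + 1 with hK
  have hK0 : 0 < K := by linarith
  have hr0 : (0 : ℝ) ≤ r := Nat.cast_nonneg r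
  set x : ℝ := K ^ 4 * t with hx
  have hx0 : 0 < x := by positivity
  set c : ℕ := ⌊x - K ^ 3 / 2⌋₊ with hc
  have hK3 : 8 ≤ K ^ 3 := by
    calc (8 : ℝ) = 2 ^ 3 := by norm_num
      _ ≤ K ^ 3 := pow_le_pow_left₀ (by norm_num) k1 3
  have hxb : K ^ 3 * (2 * r + 6) ≤ x := by
    calc K ^ 3 * (2 * (r : ℝ) + 6) ≤ K ^ 3 * (K * t) :=
          mul_le_mul_of_nonneg_left k5 (by positivity)
      _ = K ^ 4 * t := by ring
  have hxw : 0 ≤ x - K ^ 3 / 2 := by nlinarith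
  have hc1 : (c : ℝ) ≤ x - K ^ 3 / 2 := Nat.floor_le hxw
  have hc2 : x - K ^ 3 / 2 < c + 1 := Nat.lt_floor_add_one _
  have hcK : (c : ℝ) ≤ K ^ 5 := by
    have : x ≤ K ^ 5 := by
      calc K ^ 4 * t ≤ K ^ 4 * K := mul_le_mul_of_nonneg_left k4 (by positivity)
        _ = K ^ 5 := by ring
    have h3 : (0 : ℝ) ≤ K ^ 3 := by positivity
    linarith
  have hcN : c ≤ (k + 1) ^ 5 := by
    have h : ((c : ℕ) : ℝ) ≤ (((k + 1) ^ 5 : ℕ) : ℝ) := by push_cast; exact hcK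
    exact_mod_cast h
  have hcl : 2 * r + 2 + (k + 1) ^ 3 ≤ c := by
    have h : ((2 * r + 2 + (k + 1) ^ 3 : ℕ) : ℝ) < (c : ℝ) + 1 := by
      push_cast
      rw [← hK]
      nlinarith
    have h2 : 2 * r + 2 + (k + 1) ^ 3 < c + 1 := by exact_mod_cast h
    omega
  set w : ℕ := (k + 1) ^ 3 with hw
  have hwK : (w : ℝ) = K ^ 3 := by rw [hw]; push_cast; rfl
  -- the window
  have hwin : ∃ s, c ≤ s ∧ s + w ≤ (PP r).N k ∧ (PP r).v k (s - c) = 0 ∧
      ∀ l ≤ w, (PP r).v k (s + l) = 2 * r + 1 + e := by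
    change ∃ s, c ≤ s ∧ s + w ≤ (k + 1) ^ 5 + 2 * r + 2 + w + w ∧
      lev r ((k + 1) ^ 5) w (s - c) = 0 ∧ ∀ l ≤ w, lev r ((k + 1) ^ 5) w (s + l) = 2 * r + 1 + e
    rcases Nat.le_one_iff_eq_zero_or_eq_one.1 he with h | h
    · subst h
      refine ⟨(k + 1) ^ 5 + 2 * r + 1, by omega, by omega, lev_zero (by omega), fun l hl => ?_⟩
      exact lev_w1 hl
    · subst h
      refine ⟨(k + 1) ^ 5 + 2 * r + 2 + w, by omega, by omega, lev_zero (by omega),
        fun l _ => ?_⟩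
      exact lev_w2
  obtain ⟨s, hs1, hs2, hs3, hs4⟩ := hwin
  obtain ⟨q, hq, hq2⟩ := (PP r).lower (2 * r + 1 + e) k c s w hs1 hs2 hs3 hs4 ht.le ht'
  refine ⟨q, hq, le_trans ?_ hq2⟩
  change 1 / 2 ≤ ∑ n ∈ Finset.range (w + 1), poi (c + n) (K ^ 4 * t) -
    ∑ n ∈ Finset.range (w + 1), poi (c + n) (K ^ 4 * t')
  have himg : ∀ y, ∑ n ∈ Finset.range (w + 1), poi (c + n) y =
      ∑ n ∈ Finset.Icc c (c + w), poi n y := by
    intro y
    have h : Finset.Icc c (c + w) = (Finset.range (w + 1)).image (fun n => c + n) := by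
      ext n
      rw [Finset.mem_Icc, Finset.mem_image]
      constructor
      · intro h
        exact ⟨n - c, Finset.mem_range.2 (by omega), by omega⟩
      · rintro ⟨l, hl, rfl⟩
        rw [Finset.mem_range] at hl
        omega
    rw [h, Finset.sum_image (fun a _ b _ hab => by simpa using hab)]
  rw [himg, himg]
  have hlow : 1 - x / (K ^ 3 / 2 - 1) ^ 2 ≤ ∑ n ∈ Finset.Icc c (c + w), poi n x := by
    refine cheb' hx0.le (by linarith) _ ?_
    intro n hn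
    rw [abs_lt] at hn
    rw [Finset.mem_Icc]
    constructor
    · have h : (c : ℝ) < n := by linarith [hn.1]
      exact le_of_lt (by exact_mod_cast h)
    · have h : (n : ℝ) < c + w := by rw [hwK]; linarith [hn.2]
      exact le_of_lt (by exact_mod_cast h)
  have hup : ∑ n ∈ Finset.Icc c (c + w), poi n (K ^ 4 * t') ≤
      (K ^ 4 * t') / (K ^ 4 * |t - t'| / 2) ^ 2 := by
    refine cheb (by positivity) (by positivity) _ ?_
    intro n hn
    rw [Finset.mem_Icc] at hn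
    have h1 : (c : ℝ) ≤ n := by exact_mod_cast hn.1
    have h2 : (n : ℝ) ≤ c + w := by exact_mod_cast hn.2
    rw [hwK] at h2
    have h3 : |(n : ℝ) - x| ≤ K ^ 3 := by
      rw [abs_le]
      constructor <;> linarith
    have h4 : K ^ 4 * |t - t'| ≤ |(n : ℝ) - K ^ 4 * t'| + |(n : ℝ) - x| := by
      have h5 : K ^ 4 * |t - t'| = |x - K ^ 4 * t'| := by
        rw [hx, ← mul_sub, abs_mul, abs_of_nonneg (by positivity : (0 : ℝ) ≤ K ^ 4)]
      rw [h5]
      have := abs_sub_le x (n : ℝ) (K ^ 4 * t')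
      rw [abs_sub_comm x (n : ℝ)] at this
      linarith
    have h6 : K ^ 3 ≤ K ^ 4 * |t - t'| / 2 := by
      have : K ^ 3 * 2 ≤ K ^ 3 * (K * |t - t'|) := mul_le_mul_of_nonneg_left k6 (by positivity)
      have e : K ^ 3 * (K * |t - t'|) = K ^ 4 * |t - t'| := by ring
      linarith
    linarith
  have hlow2 : x / (K ^ 3 / 2 - 1) ^ 2 ≤ 1 / 4 := by
    have h1 : K ^ 3 / 4 ≤ K ^ 3 / 2 - 1 := by linarith
    have h2 : 0 < K ^ 3 / 4 := by positivity
    rw [div_le_iff₀ (pow_pos (by linarith) 2)]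
    have h3 : (K ^ 3 / 4) ^ 2 ≤ (K ^ 3 / 2 - 1) ^ 2 := pow_le_pow_left₀ h2.le h1 2
    have h4 : x ≤ 1 / 4 * (K ^ 3 / 4) ^ 2 := by
      have h5 : 64 * t ≤ K ^ 2 := by nlinarith
      have h6 : K ^ 4 * (64 * t) ≤ K ^ 4 * K ^ 2 := mul_le_mul_of_nonneg_left h5 (by positivity)
      have e1 : 1 / 4 * (K ^ 3 / 4) ^ 2 = K ^ 4 * K ^ 2 / 64 := by ring
      rw [e1, hx]
      linarith
    linarith
  have hup2 : (K ^ 4 * t') / (K ^ 4 * |t - t'| / 2) ^ 2 ≤ 1 / 4 := by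
    rw [div_le_iff₀ (by positivity)]
    have h1 : 2 ^ 2 ≤ (K * |t - t'|) ^ 2 := pow_le_pow_left₀ (by norm_num) k6 2
    have e : 1 / 4 * (K ^ 4 * |t - t'| / 2) ^ 2 = K ^ 6 * (K * |t - t'|) ^ 2 / 16 := by ring
    rw [e]
    have h2 : K ^ 6 * 2 ^ 2 ≤ K ^ 6 * (K * |t - t'|) ^ 2 :=
      mul_le_mul_of_nonneg_left h1 (by positivity)
    have h3 : K ^ 4 * (16 * t') ≤ K ^ 4 * K := mul_le_mul_of_nonneg_left k3 (by positivity)
    have h4 : K ^ 4 * K ≤ K ^ 6 := by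
      have : K ^ 5 * 1 ≤ K ^ 5 * K := mul_le_mul_of_nonneg_left (by linarith) (by positivity)
      have e1 : K ^ 4 * K = K ^ 5 * 1 := by ring
      have e2 : K ^ 6 = K ^ 5 * K := by ring
      rw [e1, e2]; exact this
    have h5 : (0 : ℝ) ≤ K ^ 6 := by positivity
    linarith
  linarith

end

end Pool.Agent.Q175.DP
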