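import Pool.Agent.Q175.DP.Pert

/-!
# The Dyson–Phillips terms of the chains
-/

open MeasureTheory Filter Topology

namespace Pool.Agent.Q175.DP

noncomputable section

variable (P : Par)

/-- the Dyson–Phillips terms. -/
def Par.W (j : ℕ) (t : ℝ) : XX (Om P.N) →L[ℝ] XX (Om P.N) := (1 / 4 : ℝ) ^ j • P.K j t

lemma Par.K_max (j : ℕ) (s : ℝ) : P.K j (max s 0) = P.K j s := by
  unfold Par.K
  congr 1
  funext k
  rw [max_assoc, max_self]

/-- orbits stay in the domain. -/
lemma Par.orbit {f g : XX (Om P.N)} (h : GenRel (P.K 0) f g) (s : ℝ) :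
    GenRel (P.K 0) (P.K 0 s f) (P.K 0 s g) := by
  rw [← P.K_max 0 s]
  exact P.isC0.genRel_map h (le_max_right _ _)

/-- `s ↦ B U(s) f`. -/
def Par.bpath {f g : XX (Om P.N)} (h : GenRel (P.K 0) f g) (s : ℝ) : XX (Om P.N) :=
  P.B ⟨P.K 0 s f, ⟨_, P.orbit h s⟩⟩

lemma Par.bpath_eq {f g : XX (Om P.N)} (h : GenRel (P.K 0) f g) (s : ℝ) :
    extZ P.B (P.K 0 s f) = P.bpath h s :=
  extZ_of_mem P.B ⟨P.K 0 s f, ⟨_, P.orbit h s⟩⟩

lemma Par.continuous_bpath {f g : XX (Om P.N)} (h : GenRel (P.K 0) f g) :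
    Continuous (P.bpath h) := by
  rw [continuous_iff_continuousAt]
  intro s₀
  have h1 : ∀ s, ‖P.bpath h s - P.bpath h s₀‖ ≤ 1 / 4 * ‖P.K 0 s g - P.K 0 s₀ g‖ := by
    intro s
    unfold Par.bpath
    rw [← map_sub]
    refine (P.norm_B_le _).trans (le_of_eq ?_)
    congr 2
    apply generator_eq
    have h2 := (P.orbit h s).add ((P.orbit h s₀).smul (-1))
    convert h2 using 1
    · rw [neg_smul, one_smul, ← sub_eq_add_neg]; rfl
    · rw [neg_smul, one_smul, ← sub_eq_add_neg]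
  rw [ContinuousAt, tendsto_iff_norm_sub_tendsto_zero]
  have h3 : Tendsto (fun s => 1 / 4 * ‖P.K 0 s g - P.K 0 s₀ g‖) (𝓝 s₀) (𝓝 0) := by
    have h4 := (tendsto_iff_norm_sub_tendsto_zero.1
      ((P.continuous_K 0 g).tendsto s₀)).const_mul (1 / 4 : ℝ)
    rwa [mul_zero] at h4
  exact squeeze_zero (fun s => norm_nonneg _) h1 h3

lemma Par.continuous_comp (j : ℕ) {a : ℝ → ℝ} (ha : Continuous a) {b : ℝ → XX (Om P.N)}
    (hb : Continuous b) : Continuous (fun s => P.K j (a s) (b s)) := by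
  rw [continuous_iff_continuousAt]
  intro s₀
  have h1 : Tendsto (fun s => P.K j (a s) (b s - b s₀)) (𝓝 s₀) (𝓝 0) := by
    rw [tendsto_zero_iff_norm_tendsto_zero]
    refine squeeze_zero (fun s => norm_nonneg _) (g := fun s => ‖b s - b s₀‖) (fun s => ?_)
      (tendsto_iff_norm_sub_tendsto_zero.1 (hb.tendsto s₀))
    refine ((P.K j (a s)).le_opNorm _).trans ?_
    calc ‖P.K j (a s)‖ * ‖b s - b s₀‖ ≤ 1 * ‖b s - b s₀‖ :=
          mul_le_mul_of_nonneg_right (P.norm_K_le j (a s)) (norm_nonneg _)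
      _ = ‖b s - b s₀‖ := one_mul _
  have h2 : Tendsto (fun s => P.K j (a s) (b s₀)) (𝓝 s₀) (𝓝 (P.K j (a s₀) (b s₀))) :=
    ((P.continuous_K j (b s₀)).comp ha).tendsto s₀
  have h3 := h1.add h2
  rw [zero_add] at h3
  refine h3.congr fun s => ?_
  rw [map_sub, sub_add_cancel]

lemma Par.duhamel (j : ℕ) {t : ℝ} (ht : 0 ≤ t) {f g : XX (Om P.N)} (h : GenRel (P.K 0) f g) :
    P.K (j + 1) t f = (4 : ℝ) • ∫ s in (0 : ℝ)..t, P.K j (t - s) (P.bpath h s) := by
  have hc : Continuous (fun s => P.K j (t - s) (P.bpath h s)) :=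
    P.continuous_comp j (by fun_prop) (P.continuous_bpath h)
  apply bl_ext
  intro k i' hi'
  rw [map_smul, ← ContinuousLinearMap.intervalIntegral_comp_comm _ (hc.intervalIntegrable _ _),
    smul_eq_mul]
  set G : ℝ → ℝ := fun s => bl k i' (P.K j (t - s) (P.bpath h s)) with hG
  have hGc : Continuous G := (bl k i').continuous.comp hc
  set H : ℝ → ℝ := fun s => bl k i' (P.K (j + 1) (t - s) (P.K 0 s f)) with hH
  have hHc : Continuous H := (bl k i').continuous.comp
    (P.continuous_comp (j + 1) (by fun_prop) (P.continuous_K 0 f))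
  have hform := (P.genRel_iff f g).1 h
  have hder : ∀ s ∈ Set.Ioo (0 : ℝ) t, HasDerivAt H (-(4 * G s)) s := by
    intro s hs
    have hs0 : 0 < s := hs.1
    have hst : 0 ≤ t - s := by linarith [hs.2]
    -- orbit coordinates
    have hy : ∀ i ≤ i', HasDerivAt (fun s => bl k i (P.K 0 s f))
        (P.m k * qact (P.v k) (fun i => bl k i (P.K 0 s f)) i) s := by
      intro i hi
      have hiN := hi.trans hi'
      have h1 := (P.genRel_iff _ _).1 (P.orbit h s) k i hiN
      rw [← h1, P.bl_K 0 hs0.le g k i hiN]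
      have h2 := hasDerivAt_semi (P.hv k) (P.m k) s (fun i => bl k i f) i
      have h3 : mact 0 (P.v k) (pw (P.m k * s)) (fun i => P.m k * qact (P.v k)
          (fun i => bl k i f) i) i = mact 0 (P.v k) (pw (P.m k * s)) (fun i => bl k i g) i :=
        mact_congr fun c hc => (hform k c (hc.trans hiN)).symm
      rw [h3] at h2
      refine h2.congr_of_eventuallyEq ?_
      filter_upwards [lt_mem_nhds hs0] with r hr
      exact P.bl_K 0 hr.le f k i hiN
    have h1 := hasDerivAt_duhamel (P.hv k) j (P.m k) t s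
      (y := fun s i => bl k i (P.K 0 s f)) i' hy
    have h2 : H =ᶠ[𝓝 s] fun s => mact (j + 1) (P.v k) (pw (P.m k * (t - s)))
        (fun i => bl k i (P.K 0 s f)) i' := by
      filter_upwards [gt_mem_nhds hs.2] with r hr
      exact P.bl_K (j + 1) (by linarith) _ k i' hi'
    refine (h1.congr_of_eventuallyEq h2).congr_deriv ?_
    rw [hG]
    dsimp only
    rw [P.bl_K j hst _ k i' hi', ← mact_const_mul, ← mact_const_mul]
    congr 1
    refine mact_congr fun i hi => ?_
    unfold Par.bpath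
    rw [P.bl_B _ k i (hi.trans hi')]
    ring
  have hint := intervalIntegral.integral_eq_sub_of_hasDerivAt_of_le ht hHc.continuousOn hder
    ((hGc.const_mul 4).neg.intervalIntegrable _ _)
  rw [intervalIntegral.integral_neg, intervalIntegral.integral_const_mul] at hint
  have e1 : H t = 0 := by
    rw [hH]
    dsimp only
    rw [sub_self, P.K_succ_zero]
    simp
  have e2 : H 0 = bl k i' (P.K (j + 1) t f) := by
    rw [hH]
    dsimp only
    rw [sub_zero, P.K_zero_zero, ContinuousLinearMap.id_apply]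
  rw [e1, e2] at hint
  rw [hG] at hint
  linarith

lemma Par.dpStep (j : ℕ) {t : ℝ} (ht : 0 ≤ t) :
    DPStep (P.K 0) P.B (P.W j) t (P.W (j + 1) t) := by
  rintro f ⟨g, hfg⟩
  constructor
  · have hc : Continuous (fun s => P.K j (t - s) (P.bpath hfg s)) :=
      P.continuous_comp j (by fun_prop) (P.continuous_bpath hfg)
    have hc2 := (hc.const_smul ((1 / 4 : ℝ) ^ j)).intervalIntegrable
      (μ := volume) (0 : ℝ) t
    refine hc2.congr ?_
    intro s _
    dsimp only
    rw [P.bpath_eq hfg s]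
    rfl
  · have h1 := P.duhamel j ht hfg
    show (1 / 4 : ℝ) ^ (j + 1) • P.K (j + 1) t f = _
    rw [h1, smul_smul, ← intervalIntegral.integral_smul]
    refine intervalIntegral.integral_congr fun s _ => ?_
    have e : (1 / 4 : ℝ) ^ (j + 1) * 4 = (1 / 4 : ℝ) ^ j := by rw [pow_succ]; ring
    show ((1 / 4 : ℝ) ^ (j + 1) * 4) • (P.K j (t - s) (P.bpath hfg s)) =
      P.W j (t - s) (extZ P.B (P.K 0 s f))
    rw [P.bpath_eq hfg s, e]
    rfl

lemma Par.W_nonneg (j : ℕ) (t : ℝ) (f : XX (Om P.N)) (hf : 0 ≤ f) : 0 ≤ P.W j t f := by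
  show 0 ≤ (1 / 4 : ℝ) ^ j • P.K j t f
  have h1 := P.K_nonneg j t f hf
  rw [nonneg_iff] at h1 ⊢
  intro q
  rw [smul_apply']
  exact mul_nonneg (by positivity) (h1 q)

/-- The chains give an example of the setting. -/
def Par.setting : Setting (Measure.count : Measure (Om P.N)) where
  U := P.K 0
  hU :=
    { c0 := P.isC0
      contr := fun t _ => P.norm_K_le 0 t
      pos := fun t _ f hf => P.K_nonneg 0 t f hf }
  B := P.B
  hB :=
    { bdd := ⟨0, 1 / 4, fun f => by rw [zero_mul, zero_add]; exact P.norm_B_le f⟩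
      pos := P.B_nonneg
      rad := ⟨0, fun l hl => ⟨P.R l hl, P.S l hl, P.isResolvent l hl,
        fun x => ⟨((P.isResolvent l hl).1 x).1, rfl⟩,
        lt_of_le_of_lt ((specRad_le_norm _).trans (P.norm_S_le l hl)) (by norm_num)⟩⟩ }
  W := P.W
  hW :=
    { zero := fun t _ => by unfold Par.W; rw [pow_zero, one_smul]
      succ := fun j t ht => P.dpStep j ht
      pos := fun j t _ f hf => P.W_nonneg j t f hf }

end

end Pool.Agent.Q175.DP
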