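import Mathlib

/-!
# Semigroups, generators and Dyson–Phillips terms on `L¹(ν)`: definitions
-/

open MeasureTheory Filter Topology

namespace Pool.Agent.Q175.DP

noncomputable section

section gen

variable {X : Type*} [NormedAddCommGroup X] [NormedSpace ℝ X]

/-- Strongly continuous one-parameter semigroups `(U(t))_{t ≥ 0}` (values at negative times are
irrelevant). -/
structure IsC0 (U : ℝ → X →L[ℝ] X) : Prop where
  zero : U 0 = ContinuousLinearMap.id ℝ X
  add : ∀ s t : ℝ, 0 ≤ s → 0 ≤ t → U (s + t) = (U s).comp (U t)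
  cont : ∀ x : X, ContinuousOn (fun t => U t x) (Set.Ici 0)

/-- `(x, y)` is in the graph of the generator: `(U(h)x - x)/h → y` as `h → 0+`. -/
def GenRel (U : ℝ → X →L[ℝ] X) (x y : X) : Prop :=
  Tendsto (fun h : ℝ => h⁻¹ • (U h x - x)) (𝓝[>] 0) (𝓝 y)

lemma GenRel.add {U : ℝ → X →L[ℝ] X} {x y x' y' : X} (h : GenRel U x y) (h' : GenRel U x' y') :
    GenRel U (x + x') (y + y') := by
  unfold GenRel at *
  refine (Tendsto.add h h').congr fun t => ?_
  rw [map_add, ← smul_add]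
  congr 1
  abel

lemma GenRel.smul {U : ℝ → X →L[ℝ] X} {x y : X} (c : ℝ) (h : GenRel U x y) :
    GenRel U (c • x) (c • y) := by
  unfold GenRel at *
  refine (Tendsto.const_smul h c).congr fun t => ?_
  rw [map_smul, ← smul_sub, smul_comm]

lemma GenRel.unique {U : ℝ → X →L[ℝ] X} {x y y' : X} (h : GenRel U x y) (h' : GenRel U x y') :
    y = y' :=
  tendsto_nhds_unique h h'

lemma GenRel.zero (U : ℝ → X →L[ℝ] X) : GenRel U 0 0 := by simp [GenRel]

/-- The domain `D(T)` of the generator. -/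
def genDomain (U : ℝ → X →L[ℝ] X) : Submodule ℝ X where
  carrier := {x | ∃ y, GenRel U x y}
  add_mem' := fun ⟨y, hy⟩ ⟨y', hy'⟩ => ⟨y + y', hy.add hy'⟩
  zero_mem' := ⟨0, GenRel.zero U⟩
  smul_mem' := fun c _ ⟨y, hy⟩ => ⟨c • y, hy.smul c⟩

/-- The value of the generator at a point of its domain. -/
def genVal (U : ℝ → X →L[ℝ] X) (x : genDomain U) : X := Classical.choose x.2

lemma genVal_spec (U : ℝ → X →L[ℝ] X) (x : genDomain U) : GenRel U (x : X) (genVal U x) :=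
  Classical.choose_spec x.2

lemma genVal_add (U : ℝ → X →L[ℝ] X) (x y : genDomain U) :
    genVal U (x + y) = genVal U x + genVal U y :=
  (genVal_spec U (x + y)).unique ((genVal_spec U x).add (genVal_spec U y))

lemma genVal_smul (U : ℝ → X →L[ℝ] X) (c : ℝ) (x : genDomain U) :
    genVal U (c • x) = c • genVal U x :=
  (genVal_spec U (c • x)).unique ((genVal_spec U x).smul c)

/-- The generator `T` of the semigroup `U`, with domain `D(T)`. -/
def generator (U : ℝ → X →L[ℝ] X) : X →ₗ.[ℝ] X where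
  domain := genDomain U
  toFun :=
    { toFun := genVal U
      map_add' := genVal_add U
      map_smul' := genVal_smul U }

lemma genRel_generator (U : ℝ → X →L[ℝ] X) (x : (generator U).domain) :
    GenRel U (x : X) (generator U x) :=
  genVal_spec U x

lemma generator_eq (U : ℝ → X →L[ℝ] X) (x : (generator U).domain) {y : X}
    (h : GenRel U (x : X) y) : generator U x = y :=
  (genRel_generator U x).unique h

lemma mem_domain (U : ℝ → X →L[ℝ] X) (x : X) :
    x ∈ (generator U).domain ↔ ∃ y, GenRel U x y := Iff.rfl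

lemma IsC0.genRel_map {U : ℝ → X →L[ℝ] X} (hU : IsC0 U) {x y : X} (h : GenRel U x y) {s : ℝ}
    (hs : 0 ≤ s) : GenRel U (U s x) (U s y) := by
  unfold GenRel at *
  have h1 : Tendsto (fun h : ℝ => U s (h⁻¹ • (U h x - x))) (𝓝[>] 0) (𝓝 (U s y)) :=
    ((U s).continuous.tendsto y).comp h
  refine h1.congr' ?_
  filter_upwards [self_mem_nhdsWithin] with t ht
  have ht' : (0 : ℝ) ≤ t := le_of_lt ht
  rw [map_smul, map_sub]
  have e1 : U s (U t x) = U t (U s x) := by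
    have a1 := hU.add s t hs ht'
    have a2 := hU.add t s ht' hs
    rw [add_comm] at a2
    have a3 := congrArg (fun A => A x) (a1.symm.trans a2)
    simpa using a3
  rw [e1]

/-- `R = (l - T)⁻¹`. -/
def IsResolvent (T : X →ₗ.[ℝ] X) (l : ℝ) (R : X →L[ℝ] X) : Prop :=
  (∀ x : X, ∃ h : R x ∈ T.domain, l • R x - T ⟨R x, h⟩ = x) ∧
    ∀ φ : T.domain, R (l • (φ : X) - T φ) = φ

/-- The spectral radius of a bounded operator, by Gelfand's formula
`r(S) = inf_{n ≥ 1} ‖Sⁿ‖^{1/n}`. -/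
def specRad (S : X →L[ℝ] X) : ℝ := ⨅ n : ℕ, ‖S ^ (n + 1)‖ ^ (1 / ((n : ℝ) + 1))

lemma specRad_le_norm (S : X →L[ℝ] X) : specRad S ≤ ‖S‖ := by
  unfold specRad
  refine (ciInf_le ⟨0, ?_⟩ 0).trans ?_
  · rintro _ ⟨n, rfl⟩
    positivity
  · simp

/-- Weakly compact operators: bounded sets are mapped to relatively weakly compact sets. -/
def WeaklyCompactOp (A : X →L[ℝ] X) : Prop :=
  ∀ S : Set X, Bornology.IsBounded S → IsCompact (closure (toWeakSpace ℝ X '' (A '' S)))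

lemma weaklyCompactOp_of_compact {A : X →L[ℝ] X} (hA : IsCompactOperator A) :
    WeaklyCompactOp A := by
  intro S hS
  obtain ⟨K, hK, hSK⟩ := IsCompactOperator.image_subset_compact_of_bounded (f := (A : X →ₗ[ℝ] X))
    hA hS
  have h1 : IsCompact (toWeakSpaceCLM ℝ X '' K) := hK.image (toWeakSpaceCLM ℝ X).continuous
  have h2 : toWeakSpace ℝ X '' (A '' S) ⊆ toWeakSpaceCLM ℝ X '' K := by
    rintro _ ⟨y, hy, rfl⟩
    exact ⟨y, hSK hy, rfl⟩
  exact h1.of_isClosed_subset isClosed_closure (closure_minimal h2 h1.isClosed)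

end gen

section setting

variable {Ω : Type*} [MeasurableSpace Ω]

/-- An operator defined on `D(T)`, extended by zero to the whole space (only used at points of
`D(T)`). -/
def extZ {X : Type*} [NormedAddCommGroup X] [NormedSpace ℝ X] {D : Submodule ℝ X}
    (B : D →ₗ[ℝ] X) (x : X) : X :=
  open Classical in if h : x ∈ D then B ⟨x, h⟩ else 0

lemma extZ_of_mem {X : Type*} [NormedAddCommGroup X] [NormedSpace ℝ X] {D : Submodule ℝ X}
    (B : D →ₗ[ℝ] X) (x : D) : extZ B (x : X) = B x := by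
  unfold extZ
  rw [dif_pos x.2]

/-- real `L¹(ν)`. -/
abbrev L1R (ν : Measure Ω) : Type _ := Lp ℝ 1 ν

/-- positive operators on `L¹(ν)` -/
def PosOp {ν : Measure Ω} (A : L1R ν →L[ℝ] L1R ν) : Prop := ∀ φ : L1R ν, 0 ≤ φ → 0 ≤ A φ

/-- Substochastic `C₀`-semigroups on `L¹(ν)`. -/
structure IsSubstochastic {ν : Measure Ω} (U : ℝ → L1R ν →L[ℝ] L1R ν) : Prop where
  c0 : IsC0 U
  contr : ∀ t : ℝ, 0 ≤ t → ‖U t‖ ≤ 1
  pos : ∀ t : ℝ, 0 ≤ t → PosOp (U t)

/-- `S = B R`, where `R` maps into `D(T)`. -/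
def IsComp {X : Type*} [NormedAddCommGroup X] [NormedSpace ℝ X] {D : Submodule ℝ X}
    (B : D →ₗ[ℝ] X) (R S : X →L[ℝ] X) : Prop :=
  ∀ x, ∃ h : R x ∈ D, S x = B ⟨R x, h⟩

/-- `B (l - T)⁻¹` is defined, bounded and has spectral radius less than one. -/
def RadLtOne {X : Type*} [NormedAddCommGroup X] [NormedSpace ℝ X] (T : X →ₗ.[ℝ] X)
    (B : T.domain →ₗ[ℝ] X) (l : ℝ) : Prop :=
  ∃ R S : X →L[ℝ] X, IsResolvent T l R ∧ IsComp B R S ∧ specRad S < 1

/-- `B` is `T`-bounded. -/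
def IsRelBdd {X : Type*} [NormedAddCommGroup X] [NormedSpace ℝ X] (T : X →ₗ.[ℝ] X)
    (B : T.domain →ₗ[ℝ] X) : Prop :=
  ∃ a b : ℝ, ∀ φ : T.domain, ‖B φ‖ ≤ a * ‖(φ : X)‖ + b * ‖T φ‖

/-- The perturbations `B : D(T) → L¹(ν)` of the problem: positive, `T`-bounded, with
`r(B(l - T)⁻¹) < 1` for all sufficiently large `l`. -/
structure IsPert {ν : Measure Ω} (T : L1R ν →ₗ.[ℝ] L1R ν) (B : T.domain →ₗ[ℝ] L1R ν) :
    Prop where
  bdd : IsRelBdd T B
  pos : ∀ φ : T.domain, 0 ≤ (φ : L1R ν) → 0 ≤ B φ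
  rad : ∃ Λ : ℝ, ∀ l : ℝ, Λ < l → RadLtOne T B l

/-- One step of the recursion of the Dyson–Phillips terms,
`A' φ = ∫₀ᵗ A(t-s) B U(s) φ ds` on the domain. -/
def DPStep {X : Type*} [NormedAddCommGroup X] [NormedSpace ℝ X] (U : ℝ → X →L[ℝ] X)
    {D : Submodule ℝ X} (B : D →ₗ[ℝ] X) (A : ℝ → X →L[ℝ] X) (t : ℝ) (A' : X →L[ℝ] X) : Prop :=
  ∀ φ ∈ D, IntervalIntegrable (fun s => A (t - s) (extZ B (U s φ))) volume 0 t ∧
    A' φ = ∫ s in (0 : ℝ)..t, A (t - s) (extZ B (U s φ))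

/-- The Dyson–Phillips terms `W j t = U_j(t)`. -/
structure IsDysonPhillips {ν : Measure Ω} (U : ℝ → L1R ν →L[ℝ] L1R ν)
    (B : (generator U).domain →ₗ[ℝ] L1R ν) (W : ℕ → ℝ → L1R ν →L[ℝ] L1R ν) : Prop where
  zero : ∀ t : ℝ, 0 ≤ t → W 0 t = U t
  succ : ∀ (j : ℕ) (t : ℝ), 0 ≤ t → DPStep U B (W j) t (W (j + 1) t)
  pos : ∀ (j : ℕ) (t : ℝ), 0 ≤ t → PosOp (W j t)

/-- The setting of the problem: a substochastic `C₀`-semigroup `U` on `L¹(ν)` with generator `T`,
a positive `T`-bounded perturbation `B : D(T) → L¹(ν)` with `r(B(l - T)⁻¹) < 1` for all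
sufficiently large `l`, and the Dyson–Phillips terms `W j t = U_j(t)`. -/
structure Setting (ν : Measure Ω) where
  /-- the semigroup -/
  U : ℝ → L1R ν →L[ℝ] L1R ν
  hU : IsSubstochastic U
  /-- the perturbation -/
  B : (generator U).domain →ₗ[ℝ] L1R ν
  hB : IsPert (generator U) B
  /-- the Dyson–Phillips terms `W j t = U_j(t)` -/
  W : ℕ → ℝ → L1R ν →L[ℝ] L1R ν
  hW : IsDysonPhillips U B W

end setting

end

end Pool.Agent.Q175.DP
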