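import Pool.Agent.Q175.DP.Alg

/-!
# Triangular kernels with Poisson weights: derivatives
-/

open Filter Topology

namespace Pool.Agent.Q175.DP

noncomputable section

/-- the Poisson weights at time `x`. -/
def pw (x : ℝ) : ℕ → ℝ := fun n => poi n x

lemma hasDerivAt_pw (n : ℕ) (x : ℝ) : HasDerivAt (fun x => pw x n) (wder (pw x) n) x := by
  cases n with
  | zero => exact hasDerivAt_poi_zero x
  | succ n => exact hasDerivAt_poi_succ n x

lemma hasDerivAt_mact_gen (j : ℕ) (v : ℕ → ℕ) {a : ℝ → ℝ} {a' s : ℝ} (ha : HasDerivAt a a' s)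
    {y : ℝ → ℕ → ℝ} {y' : ℕ → ℝ} (i' : ℕ)
    (hy : ∀ i ≤ i', HasDerivAt (fun s => y s i) (y' i) s) :
    HasDerivAt (fun s => mact j v (pw (a s)) (y s) i')
      (a' * mact j v (wder (pw (a s))) (y s) i' + mact j v (pw (a s)) y' i') s := by
  unfold mact
  rw [Finset.mul_sum, ← Finset.sum_add_distrib]
  have h : ∀ i ∈ Finset.range (i' + 1), HasDerivAt
      (fun s => (if v i' = v i + j then pw (a s) (i' - i) else 0) * y s i)
      (a' * ((if v i' = v i + j then wder (pw (a s)) (i' - i) else 0) * y s i) +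
        (if v i' = v i + j then pw (a s) (i' - i) else 0) * y' i) s := by
    intro i hi
    have hi' : i ≤ i' := Nat.lt_succ_iff.1 (Finset.mem_range.1 hi)
    by_cases c : v i' = v i + j
    · simp only [if_pos c]
      have h1 := (HasDerivAt.comp s (hasDerivAt_pw (i' - i) (a s)) ha).mul (hy i hi')
      refine h1.congr_deriv ?_
      simp only [Function.comp]
      ring
    · simp only [if_neg c, zero_mul, mul_zero, add_zero]
      exact hasDerivAt_const s 0
  have h2 := HasDerivAt.fun_sum h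
  exact h2

lemma mact_const_mul (j : ℕ) (v : ℕ → ℕ) (w x : ℕ → ℝ) (c : ℝ) (i' : ℕ) :
    mact j v w (fun i => c * x i) i' = c * mact j v w x i' := by
  unfold mact
  rw [Finset.mul_sum]
  refine Finset.sum_congr rfl fun i _ => ?_
  ring

lemma mact_pw_zero (v : ℕ → ℕ) (x : ℕ → ℝ) (i' : ℕ) : mact 0 v (pw 0) x i' = x i' := by
  unfold mact
  rw [Finset.sum_range_succ, Finset.sum_eq_zero]
  · simp [pw, poi_zero_zero]
  · intro i hi
    have hi' : i < i' := Finset.mem_range.1 hi
    obtain ⟨n, hn⟩ : ∃ n, i' - i = n + 1 := ⟨i' - i - 1, by omega⟩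
    rw [hn]
    simp [pw, poi_succ_zero]

lemma mact_succ_pw_zero (j : ℕ) (v : ℕ → ℕ) (x : ℕ → ℝ) (i' : ℕ) :
    mact (j + 1) v (pw 0) x i' = 0 := by
  unfold mact
  refine Finset.sum_eq_zero fun i hi => ?_
  have hi' : i ≤ i' := Nat.lt_succ_iff.1 (Finset.mem_range.1 hi)
  rcases Nat.lt_or_eq_of_le hi' with h | h
  · obtain ⟨n, hn⟩ : ∃ n, i' - i = n + 1 := ⟨i' - i - 1, by omega⟩
    rw [hn]
    simp [pw, poi_succ_zero]
  · subst h
    rw [if_neg (by omega), zero_mul]

/-- time derivative of the semigroup part applied to a fixed vector. -/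
lemma hasDerivAt_semi {v : ℕ → ℕ} (hv : IsLevel v) (m t : ℝ) (x : ℕ → ℝ) (i' : ℕ) :
    HasDerivAt (fun s => mact 0 v (pw (m * s)) x i')
      (mact 0 v (pw (m * t)) (fun i => m * qact v x i) i') t := by
  have h1 : HasDerivAt (fun s : ℝ => m * s) m t := by
    simpa using (hasDerivAt_id t).const_mul m
  have h := hasDerivAt_mact_gen 0 v h1 (y := fun _ => x) (y' := fun _ => 0) i'
    (fun i _ => hasDerivAt_const t (x i))
  refine h.congr_deriv ?_
  rw [mact_wder_zero hv, mact_const_mul]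
  have h2 : mact 0 v (pw (m * t)) (fun _ => 0) i' = 0 := by
    unfold mact
    refine Finset.sum_eq_zero fun i _ => by rw [mul_zero]
  rw [h2, add_zero]

/-- the Duhamel derivative. -/
lemma hasDerivAt_duhamel {v : ℕ → ℕ} (hv : IsLevel v) (j : ℕ) (m t s : ℝ) {y : ℝ → ℕ → ℝ}
    (i' : ℕ) (hy : ∀ i ≤ i', HasDerivAt (fun s => y s i) (m * qact v (y s) i) s) :
    HasDerivAt (fun s => mact (j + 1) v (pw (m * (t - s))) (y s) i')
      (-(m * mact j v (pw (m * (t - s))) (bact v (y s)) i')) s := by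
  have h1 : HasDerivAt (fun s : ℝ => m * (t - s)) (-m) s := by
    have := ((hasDerivAt_id s).const_sub t).const_mul m
    simpa using this
  have h := hasDerivAt_mact_gen (j + 1) v h1 i' hy
  refine h.congr_deriv ?_
  rw [mact_wder_succ hv, mact_const_mul]
  ring

end

end Pool.Agent.Q175.DP
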