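import Mathlib

/-!
# `L¹` of the counting measure on a discrete space

Coordinates, basis vectors, operators given by a bounded family of columns.
-/

open MeasureTheory Filter Topology
open scoped ENNReal

namespace Pool.Agent.Q175.DP

noncomputable section

variable {Ω : Type} [MeasurableSpace Ω] [MeasurableSingletonClass Ω]

/-- `L¹` of the counting measure. -/
abbrev XX (Ω : Type) [MeasurableSpace Ω] : Type := Lp ℝ 1 (Measure.count : Measure Ω)

lemma ae_count_iff' {p : Ω → Prop} :
    (∀ᵐ x ∂(Measure.count : Measure Ω), p x) ↔ ∀ x, p x := by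
  constructor
  · intro h x
    by_contra hx
    have h0 : (Measure.count : Measure Ω) {x} = 0 := by
      refine measure_mono_null ?_ h
      intro y hy
      rw [Set.mem_singleton_iff] at hy
      subst hy
      exact hx
    simp at h0
  · intro h
    exact ae_of_all _ h

omit [MeasurableSingletonClass Ω] in
lemma xx_ext {f g : XX Ω} (h : ∀ q, f q = g q) : f = g :=
  Lp.ext (ae_of_all _ h)

lemma add_apply' (f g : XX Ω) (q : Ω) : (f + g : XX Ω) q = f q + g q :=
  ae_count_iff'.1 (Lp.coeFn_add f g) q

lemma sub_apply' (f g : XX Ω) (q : Ω) : (f - g : XX Ω) q = f q - g q :=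
  ae_count_iff'.1 (Lp.coeFn_sub f g) q

lemma neg_apply' (f : XX Ω) (q : Ω) : (-f : XX Ω) q = -f q :=
  ae_count_iff'.1 (Lp.coeFn_neg f) q

lemma smul_apply' (c : ℝ) (f : XX Ω) (q : Ω) : (c • f : XX Ω) q = c * f q :=
  ae_count_iff'.1 (Lp.coeFn_smul c f) q

lemma zero_apply' (q : Ω) : (0 : XX Ω) q = 0 :=
  ae_count_iff'.1 (Lp.coeFn_zero ℝ 1 (Measure.count : Measure Ω)) q

lemma summable_abs (f : XX Ω) : Summable (fun q => |f q|) := by
  have h := L1.integrable_coeFn f
  exact integrable_count_iff.1 h

lemma norm_eq_tsum (f : XX Ω) : ‖f‖ = ∑' q, |f q| := by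
  have h1 : ‖f‖ = (∑' q, ‖f q‖ₑ).toReal := by
    rw [L1.norm_def, lintegral_count]
  have h2 := summable_abs f
  have h3 : ∑' q, ‖f q‖ₑ = ENNReal.ofReal (∑' q, |f q|) := by
    rw [ENNReal.ofReal_tsum_of_nonneg (fun q => abs_nonneg _) h2]
    refine tsum_congr fun q => ?_
    rw [Real.enorm_eq_ofReal_abs]
  rw [h1, h3, ENNReal.toReal_ofReal (tsum_nonneg fun q => abs_nonneg _)]

lemma abs_apply_le (f : XX Ω) (q : Ω) : |f q| ≤ ‖f‖ := by
  rw [norm_eq_tsum]
  exact (summable_abs f).le_tsum q (fun _ _ => abs_nonneg _)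

/-- An element of `L¹` from a summable family. -/
def mkX (g : Ω → ℝ) (hg : Summable (fun q => |g q|)) : XX Ω :=
  (integrable_count_iff.2 (by simpa using hg) : Integrable g Measure.count).toL1 g

lemma mkX_apply (g : Ω → ℝ) (hg : Summable (fun q => |g q|)) (q : Ω) : mkX g hg q = g q :=
  ae_count_iff'.1 (Integrable.coeFn_toL1 _) q

/-- evaluation at a point. -/
def ev (q : Ω) : XX Ω →L[ℝ] ℝ :=
  LinearMap.mkContinuous
    { toFun := fun f => f q
      map_add' := fun f g => add_apply' f g q
      map_smul' := fun c f => smul_apply' c f q } 1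
    (fun f => by simpa using abs_apply_le f q)

@[simp] lemma ev_apply (q : Ω) (f : XX Ω) : ev q f = f q := rfl

lemma nonneg_iff (f : XX Ω) : 0 ≤ f ↔ ∀ q, 0 ≤ f q := by
  rw [← Lp.coeFn_nonneg]
  exact ae_count_iff'

variable [DecidableEq Ω]

omit [MeasurableSpace Ω] [MeasurableSingletonClass Ω] in
lemma summable_single (q : Ω) (c : ℝ) : Summable (fun r : Ω => |(if r = q then c else 0 : ℝ)|) := by
  apply summable_of_ne_finset_zero (s := {q})
  intro r hr
  rw [Finset.mem_singleton] at hr
  simp [hr]

/-- basis vectors. -/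
def bas (q : Ω) : XX Ω := mkX (fun r => if r = q then 1 else 0) (summable_single q 1)

lemma bas_apply (q r : Ω) : bas q r = if r = q then 1 else 0 := mkX_apply _ _ r

lemma norm_bas (q : Ω) : ‖bas q‖ = 1 := by
  rw [norm_eq_tsum]
  have : (fun r => |bas q r|) = fun r => if r = q then (1:ℝ) else 0 := by
    funext r
    rw [bas_apply]
    split_ifs <;> simp
  rw [this, tsum_ite_eq]

lemma bas_nonneg (q : Ω) : 0 ≤ bas q := by
  rw [nonneg_iff]
  intro r
  rw [bas_apply]
  split_ifs <;> norm_num

lemma hasSum_bas (f : XX Ω) : HasSum (fun q => f q • bas q) f := by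
  have hs : Summable (fun q => f q • bas q) := by
    apply Summable.of_norm
    refine (summable_abs f).congr ?_
    intro q
    rw [norm_smul, norm_bas, mul_one, Real.norm_eq_abs]
  have : ∑' q, f q • bas q = f := by
    apply xx_ext
    intro r
    rw [← ev_apply, (ev r).map_tsum hs]
    have : (fun q => ev r (f q • bas q)) = fun q => if q = r then f r else 0 := by
      funext q
      rw [map_smul, ev_apply, bas_apply]
      by_cases h : q = r
      · subst h; simp
      · rw [if_neg (fun h' => h h'.symm), if_neg h]; simp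
    rw [this, tsum_ite_eq]
  rw [← this]
  have h2 := hs.hasSum
  rw [this] at h2
  rw [this]
  exact h2

variable {Y : Type*} [NormedAddCommGroup Y] [NormedSpace ℝ Y]

lemma clm_ext {A B : XX Ω →L[ℝ] Y} (h : ∀ q, A (bas q) = B (bas q)) : A = B := by
  ext f
  have h1 := (hasSum_bas f).mapL A
  have h2 := (hasSum_bas f).mapL B
  have h3 : (fun q => A (f q • bas q)) = fun q => B (f q • bas q) := by
    funext q
    rw [map_smul, map_smul, h]
  rw [h3] at h1
  exact h1.unique h2

lemma clm_norm_le {A : XX Ω →L[ℝ] Y} {C : ℝ} (hC : 0 ≤ C) (h : ∀ q, ‖A (bas q)‖ ≤ C) :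
    ‖A‖ ≤ C := by
  refine A.opNorm_le_bound hC ?_
  intro f
  have h1 := (hasSum_bas f).mapL A
  have h2 : Summable (fun q => |f q| * C) := (summable_abs f).mul_right C
  have h3 : ∀ q, ‖A (f q • bas q)‖ ≤ |f q| * C := by
    intro q
    rw [map_smul, norm_smul, Real.norm_eq_abs]
    exact mul_le_mul_of_nonneg_left (h q) (abs_nonneg _)
  rw [← h1.tsum_eq]
  refine (tsum_of_norm_bounded h2.hasSum h3).trans ?_
  rw [tsum_mul_right, norm_eq_tsum, mul_comm]

/-- The operator with given columns. -/
def colOp [CompleteSpace Y] (c : Ω → Y) (C : ℝ) (hc : ∀ q, ‖c q‖ ≤ C) : XX Ω →L[ℝ] Y :=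
  have hs : ∀ f : XX Ω, Summable (fun q => f q • c q) := fun f => by
    apply Summable.of_norm
    refine Summable.of_nonneg_of_le (fun _ => norm_nonneg _) ?_ ((summable_abs f).mul_right C)
    intro q
    rw [norm_smul, Real.norm_eq_abs]
    exact mul_le_mul_of_nonneg_left (hc q) (abs_nonneg _)
  LinearMap.mkContinuous
    { toFun := fun f => ∑' q, f q • c q
      map_add' := fun f g => by
        rw [← (hs f).tsum_add (hs g)]
        refine tsum_congr fun q => ?_
        rw [add_apply', add_smul]
      map_smul' := fun a f => by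
        rw [RingHom.id_apply, ← (hs f).tsum_const_smul a]
        refine tsum_congr fun q => ?_
        rw [smul_apply', mul_smul] } C
    (fun f => by
      show ‖∑' q, f q • c q‖ ≤ C * ‖f‖
      refine (tsum_of_norm_bounded ((summable_abs f).mul_right C).hasSum ?_).trans ?_
      · intro q
        rw [norm_smul, Real.norm_eq_abs]
        exact mul_le_mul_of_nonneg_left (hc q) (abs_nonneg _)
      · rw [tsum_mul_right, norm_eq_tsum, mul_comm])

omit [DecidableEq Ω] in
lemma colOp_apply [CompleteSpace Y] (c : Ω → Y) (C : ℝ) (hc : ∀ q, ‖c q‖ ≤ C) (f : XX Ω) :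
    colOp c C hc f = ∑' q, f q • c q := rfl

lemma colOp_bas [CompleteSpace Y] (c : Ω → Y) (C : ℝ) (hc : ∀ q, ‖c q‖ ≤ C) (q : Ω) :
    colOp c C hc (bas q) = c q := by
  rw [colOp_apply]
  rw [tsum_eq_single q]
  · rw [bas_apply, if_pos rfl, one_smul]
  · intro r hr
    rw [bas_apply, if_neg hr, zero_smul]

/-- Compactness criterion: columns tending to zero. -/
lemma compact_of_cols [CompleteSpace Y] (A : XX Ω →L[ℝ] Y)
    (h : Tendsto (fun q => ‖A (bas q)‖) cofinite (𝓝 0)) : IsCompactOperator A := by
  have key : ∀ F : Finset Ω, IsCompactOperator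
      (∑ q ∈ F, (ev q).smulRight (A (bas q)) : XX Ω →L[ℝ] Y) := by
    intro F
    have h1 : ∀ q, IsCompactOperator ((ev q).smulRight (A (bas q)) : XX Ω →L[ℝ] Y) := by
      intro q
      have h2 : IsCompactOperator (ContinuousLinearMap.id ℝ ℝ) := by
        refine ⟨Metric.closedBall 0 1, isCompact_closedBall _ _, ?_⟩
        exact Metric.closedBall_mem_nhds _ one_pos
      have h3 := (h2.comp_clm (ev q)).clm_comp
        ((ContinuousLinearMap.id ℝ ℝ).smulRight (A (bas q)))
      exact h3
    classical
    induction F using Finset.induction_on with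
    | empty =>
      simp only [Finset.sum_empty]
      exact isCompactOperator_zero
    | insert a s ha ih =>
      rw [Finset.sum_insert ha]
      exact (h1 a).add ih
  have hcl : IsClosed {B : XX Ω →L[ℝ] Y | IsCompactOperator B} := isClosed_setOfPred_isCompactOperator
  have hmem : A ∈ closure {B : XX Ω →L[ℝ] Y | IsCompactOperator B} := by
    rw [Metric.mem_closure_iff]
    intro ε hε
    have h1 : ∀ᶠ q in cofinite, ‖A (bas q)‖ < ε / 2 := by
      exact h.eventually (gt_mem_nhds (by positivity))
    have h2 : {q | ¬ ‖A (bas q)‖ < ε / 2}.Finite := h1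
    refine ⟨∑ q ∈ h2.toFinset, (ev q).smulRight (A (bas q)), key _, ?_⟩
    rw [dist_eq_norm]
    refine lt_of_le_of_lt (clm_norm_le (C := ε / 2) (by positivity) ?_) (by linarith)
    intro r
    rw [sub_apply, sum_apply]
    have h3 : ∑ q ∈ h2.toFinset, ((ev q).smulRight (A (bas q))) (bas r)
        = ∑ q ∈ h2.toFinset, if q = r then A (bas r) else 0 := by
      refine Finset.sum_congr rfl fun q _ => ?_
      rw [ContinuousLinearMap.smulRight_apply, ev_apply, bas_apply]
      by_cases hq : q = r
      · subst hq; simp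
      · rw [if_neg hq, if_neg hq, zero_smul]
    rw [h3, Finset.sum_ite_eq']
    by_cases hr : r ∈ h2.toFinset
    · rw [if_pos hr, sub_self, norm_zero]; positivity
    · rw [if_neg hr, sub_zero]
      rw [Set.Finite.mem_toFinset, Set.mem_ofPred_eq, not_not] at hr
      exact hr.le
  rwa [hcl.closure_eq] at hmem

end

end Pool.Agent.Q175.DP
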