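import Pool.Agent.Q175.DP.L1
import Pool.Agent.Q175.DP.Der

/-!
# The block space and kernel operators on it
-/

open MeasureTheory Filter Topology

namespace Pool.Agent.Q175.DP

noncomputable section

/-- The countable discrete space: blocks `k`, states `0, …, N k`. -/
structure Om (N : ℕ → ℕ) : Type where
  /-- the block -/
  k : ℕ
  /-- the state -/
  i : ℕ
  hi : i < N k + 1

variable {N : ℕ → ℕ}

instance : MeasurableSpace (Om N) := ⊤
instance : MeasurableSingletonClass (Om N) := ⟨fun _ => trivial⟩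

lemma om_eq_iff (q r : Om N) : q = r ↔ q.k = r.k ∧ q.i = r.i := by
  constructor
  · rintro rfl; exact ⟨rfl, rfl⟩
  · obtain ⟨k, i, h⟩ := q
    obtain ⟨k', i', h'⟩ := r
    rintro ⟨h1, h2⟩
    dsimp only at h1 h2
    subst h1
    subst h2
    rfl

instance : DecidableEq (Om N) := fun q r => decidable_of_iff _ (om_eq_iff q r).symm

/-- the space as a sigma type. -/
def omEquiv (N : ℕ → ℕ) : ((k : ℕ) × Fin (N k + 1)) ≃ Om N where
  toFun q := ⟨q.1, q.2.1, q.2.2⟩
  invFun q := ⟨q.k, ⟨q.i, q.hi⟩⟩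
  left_inv _ := rfl
  right_inv _ := rfl

/-- coordinate functionals, zero outside of the block. -/
def bl (k i : ℕ) : XX (Om N) →L[ℝ] ℝ :=
  if h : i < N k + 1 then ev (⟨k, i, h⟩ : Om N) else 0

lemma bl_eq (k i : ℕ) (h : i < N k + 1) (f : XX (Om N)) :
    bl k i f = f (⟨k, i, h⟩ : Om N) := by
  unfold bl
  rw [dif_pos h]
  rfl

lemma bl_bas (k i : ℕ) (q : Om N) :
    bl k i (bas q) = if q.k = k ∧ q.i = i then 1 else 0 := by
  by_cases h : i < N k + 1
  · rw [bl_eq k i h, bas_apply]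
    by_cases c : q.k = k ∧ q.i = i
    · rw [if_pos c, if_pos]
      rw [om_eq_iff]
      exact ⟨c.1.symm, c.2.symm⟩
    · rw [if_neg c, if_neg]
      intro hq
      rw [om_eq_iff] at hq
      exact c ⟨hq.1.symm, hq.2.symm⟩
  · unfold bl
    rw [dif_neg h, if_neg]
    · rfl
    · rintro ⟨h1, h2⟩
      have := q.hi
      subst h1
      omega

lemma bl_ext {f g : XX (Om N)} (h : ∀ k, ∀ i ≤ N k, bl k i f = bl k i g) : f = g := by
  apply xx_ext
  rintro ⟨k, i, hi⟩
  rw [← bl_eq k i hi, ← bl_eq k i hi]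
  exact h k i (Nat.lt_succ_iff.1 hi)

lemma blockSum_eq (k : ℕ) (f : XX (Om N)) :
    ∑' i : Fin (N k + 1), |f (⟨k, i.1, i.2⟩ : Om N)|
      = ∑ i ∈ Finset.range (N k + 1), |bl k i f| := by
  rw [tsum_fintype, Finset.sum_range]
  refine Finset.sum_congr rfl fun i _ => ?_
  rw [bl_eq k i i.2]

lemma summable_block (f : XX (Om N)) :
    Summable (fun k => ∑ i ∈ Finset.range (N k + 1), |bl k i f|) := by
  have h := (omEquiv N).summable_iff.2 (summable_abs f)
  have h2 := (summable_sigma_of_nonneg (fun q => abs_nonneg _)).1 h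
  refine h2.2.congr fun k => ?_
  exact blockSum_eq k f

lemma norm_eq_block (f : XX (Om N)) :
    ‖f‖ = ∑' k, ∑ i ∈ Finset.range (N k + 1), |bl k i f| := by
  rw [norm_eq_tsum]
  have h := (omEquiv N).summable_iff.2 (summable_abs f)
  rw [← (omEquiv N).tsum_eq]
  refine (Summable.tsum_sigma h).trans (tsum_congr fun k => ?_)
  exact blockSum_eq k f

lemma blockSum_le (k : ℕ) (f : XX (Om N)) :
    ∑ i ∈ Finset.range (N k + 1), |bl k i f| ≤ ‖f‖ := by
  rw [norm_eq_block]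
  exact (summable_block f).le_tsum k (fun _ _ => Finset.sum_nonneg fun _ _ => abs_nonneg _)

lemma norm_le_of_block {f g : XX (Om N)} {C : ℝ}
    (h : ∀ k, ∑ i ∈ Finset.range (N k + 1), |bl k i f| ≤
      C * ∑ i ∈ Finset.range (N k + 1), |bl k i g|) : ‖f‖ ≤ C * ‖g‖ := by
  rw [norm_eq_block, norm_eq_block, ← tsum_mul_left]
  exact (summable_block f).tsum_le_tsum h ((summable_block g).mul_left C)

lemma summable_of_block (u : ℕ → ℕ → ℝ)
    (hu : Summable (fun k => ∑ i ∈ Finset.range (N k + 1), |u k i|)) :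
    Summable (fun q : Om N => |u q.k q.i|) := by
  rw [← (omEquiv N).summable_iff]
  refine (summable_sigma_of_nonneg (fun q => abs_nonneg _)).2
    ⟨fun k => Summable.of_finite, ?_⟩
  refine hu.congr fun k => ?_
  rw [tsum_fintype, Finset.sum_range]
  rfl

/-- an element from its coordinates. -/
def ofSeq (u : ℕ → ℕ → ℝ) (hu : Summable (fun k => ∑ i ∈ Finset.range (N k + 1), |u k i|)) :
    XX (Om N) :=
  mkX (fun q : Om N => u q.k q.i) (summable_of_block u hu)

lemma bl_ofSeq (u : ℕ → ℕ → ℝ)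
    (hu : Summable (fun k => ∑ i ∈ Finset.range (N k + 1), |u k i|)) (k i : ℕ) (h : i ≤ N k) :
    bl k i (ofSeq u hu) = u k i := by
  rw [bl_eq k i (Nat.lt_succ_of_le h)]
  unfold ofSeq
  rw [mkX_apply]

/-! ### kernel operators -/

/-- columns of the kernel operator. -/
def kcol (v : ℕ → ℕ → ℕ) (j : ℕ) (w : ℕ → ℕ → ℝ) (q : Om N) : XX (Om N) :=
  ∑ i' : Fin (N q.k + 1), (if q.i ≤ i' ∧ v q.k i' = v q.k q.i + j
    then w q.k ((i' : ℕ) - q.i) else 0) • bas (⟨q.k, i'.1, i'.2⟩ : Om N)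

lemma bl_kcol (v : ℕ → ℕ → ℕ) (j : ℕ) (w : ℕ → ℕ → ℝ) (q : Om N) (k i' : ℕ) (hi' : i' ≤ N k) :
    bl k i' (kcol v j w q) = if q.k = k ∧ q.i ≤ i' ∧ v k i' = v k q.i + j
      then w k (i' - q.i) else 0 := by
  unfold kcol
  rw [map_sum]
  obtain ⟨k', i, hi⟩ := q
  dsimp only
  by_cases h : k' = k
  · subst h
    rw [Finset.sum_eq_single (⟨i', Nat.lt_succ_of_le hi'⟩ : Fin (N k' + 1))]
    · have e : bl k' i' (bas (⟨k', i', Nat.lt_succ_of_le hi'⟩ : Om N)) = 1 := by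
        rw [bl_bas, if_pos ⟨rfl, rfl⟩]
      rw [map_smul, e]
      simp
    · intro c _ hc
      have e : bl k' i' (bas (⟨k', c.1, c.2⟩ : Om N)) = 0 := by
        rw [bl_bas, if_neg]
        rintro ⟨-, h2⟩
        exact hc (Fin.ext h2)
      rw [map_smul, e, smul_zero]
    · intro h; exact absurd (Finset.mem_univ _) h
  · rw [if_neg (fun c => h c.1)]
    refine Finset.sum_eq_zero fun c _ => ?_
    have e : bl k i' (bas (⟨k', c.1, c.2⟩ : Om N)) = 0 := by
      rw [bl_bas, if_neg]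
      rintro ⟨h2, -⟩
      exact h h2
    rw [map_smul, e, smul_zero]

lemma norm_kcol_le_sum (v : ℕ → ℕ → ℕ) (j : ℕ) (w : ℕ → ℕ → ℝ) (q : Om N) :
    ‖kcol v j w q‖ ≤ ∑ i' ∈ Finset.range (N q.k + 1),
      if q.i ≤ i' ∧ v q.k i' = v q.k q.i + j then |w q.k (i' - q.i)| else 0 := by
  unfold kcol
  refine (norm_sum_le _ _).trans ?_
  rw [Finset.sum_range]
  refine Finset.sum_le_sum fun i' _ => ?_
  rw [norm_smul, norm_bas, mul_one, Real.norm_eq_abs]
  split_ifs
  · exact le_rfl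
  · rw [abs_zero]

lemma sum_shift_le (u : ℕ → ℝ) (hu : ∀ n, 0 ≤ u n) (c : ℕ → Prop) [DecidablePred c] (i M : ℕ) :
    ∑ i' ∈ Finset.range M, (if i ≤ i' ∧ c i' then u (i' - i) else 0) ≤
      ∑ n ∈ Finset.range (M - i), u n := by
  have h1 : ∑ i' ∈ Finset.range M, (if i ≤ i' ∧ c i' then u (i' - i) else 0) ≤
      ∑ i' ∈ Finset.range M, (if i ≤ i' then u (i' - i) else 0) := by
    refine Finset.sum_le_sum fun i' _ => ?_
    by_cases a : i ≤ i' <;> by_cases b : c i'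
    · rw [if_pos ⟨a, b⟩, if_pos a]
    · rw [if_neg (fun h => b h.2), if_pos a]; exact hu _
    · rw [if_neg (fun h => a h.1), if_neg a]
    · rw [if_neg (fun h => a h.1), if_neg a]
  refine h1.trans (le_of_eq ?_)
  rw [← Finset.sum_filter]
  have h2 : Finset.filter (fun i' => i ≤ i') (Finset.range M) = Finset.Ico i M := by
    ext x
    simp only [Finset.mem_filter, Finset.mem_range, Finset.mem_Ico]
    omega
  rw [h2, Finset.sum_Ico_eq_sum_range]
  refine Finset.sum_congr rfl fun n _ => ?_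
  rw [Nat.add_sub_cancel_left]

lemma norm_kcol_le (v : ℕ → ℕ → ℕ) (j : ℕ) (w : ℕ → ℕ → ℝ) {C : ℝ}
    (hw : ∀ k M, ∑ n ∈ Finset.range M, |w k n| ≤ C) (q : Om N) : ‖kcol v j w q‖ ≤ C := by
  refine (norm_kcol_le_sum v j w q).trans ?_
  refine (sum_shift_le (fun n => |w q.k n|) (fun _ => abs_nonneg _)
    (fun i' => v q.k i' = v q.k q.i + j) q.i (N q.k + 1)).trans ?_
  exact hw _ _

/-- The kernel operator. -/
def Kop (v : ℕ → ℕ → ℕ) (j : ℕ) (w : ℕ → ℕ → ℝ) (C : ℝ)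
    (hw : ∀ k M, ∑ n ∈ Finset.range M, |w k n| ≤ C) : XX (Om N) →L[ℝ] XX (Om N) :=
  colOp (kcol v j w) C (norm_kcol_le v j w hw)

lemma Kop_bas (v : ℕ → ℕ → ℕ) (j : ℕ) (w : ℕ → ℕ → ℝ) (C : ℝ)
    (hw : ∀ k M, ∑ n ∈ Finset.range M, |w k n| ≤ C) (q : Om N) :
    Kop v j w C hw (bas q) = kcol v j w q :=
  colOp_bas _ _ _ _

lemma norm_Kop_le (v : ℕ → ℕ → ℕ) (j : ℕ) (w : ℕ → ℕ → ℝ) (C : ℝ)
    (hw : ∀ k M, ∑ n ∈ Finset.range M, |w k n| ≤ C) :
    ‖(Kop v j w C hw : XX (Om N) →L[ℝ] XX (Om N))‖ ≤ C := by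
  have hC : 0 ≤ C := by simpa using hw 0 0
  refine clm_norm_le hC fun q => ?_
  rw [Kop_bas]
  exact norm_kcol_le v j w hw q

lemma bl_Kop (v : ℕ → ℕ → ℕ) (j : ℕ) (w : ℕ → ℕ → ℝ) (C : ℝ)
    (hw : ∀ k M, ∑ n ∈ Finset.range M, |w k n| ≤ C) (f : XX (Om N)) (k i' : ℕ)
    (hi' : i' ≤ N k) :
    bl k i' (Kop v j w C hw f) = mact j (v k) (w k) (fun i => bl k i f) i' := by
  have h : (bl k i').comp (Kop v j w C hw) = (∑ i ∈ Finset.range (i' + 1),
      (if v k i' = v k i + j then w k (i' - i) else 0) • bl k i :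
        XX (Om N) →L[ℝ] ℝ) := by
    apply clm_ext
    intro q
    rw [ContinuousLinearMap.comp_apply, Kop_bas, bl_kcol v j w q k i' hi', sum_apply]
    have e : ∀ i ∈ Finset.range (i' + 1),
        ((if v k i' = v k i + j then w k (i' - i) else 0) • bl k i : XX (Om N) →L[ℝ] ℝ) (bas q)
          = if q.i = i then (if q.k = k ∧ v k i' = v k q.i + j then w k (i' - q.i)
            else 0) else 0 := by
      intro i _
      rw [smul_apply, bl_bas, smul_eq_mul]
      by_cases a : q.i = i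
      · subst a
        by_cases b : q.k = k <;> by_cases c : v k i' = v k q.i + j <;> simp [b, c]
      · have a' : ¬ (q.k = k ∧ q.i = i) := fun h => a h.2
        rw [if_neg a', if_neg a, mul_zero]
    rw [Finset.sum_congr rfl e, Finset.sum_ite_eq]
    by_cases a : q.i ≤ i'
    · rw [if_pos (Finset.mem_range.2 (Nat.lt_succ_of_le a))]
      by_cases b : q.k = k ∧ v k i' = v k q.i + j
      · rw [if_pos b, if_pos ⟨b.1, a, b.2⟩]
      · rw [if_neg b, if_neg (fun h => b ⟨h.1, h.2.2⟩)]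
    · rw [if_neg (fun h => a (Nat.lt_succ_iff.1 (Finset.mem_range.1 h))),
        if_neg (fun h => a h.2.1)]
  have h2 := congrArg (fun A : XX (Om N) →L[ℝ] ℝ => A f) h
  simp only [ContinuousLinearMap.comp_apply, sum_apply, smul_apply, smul_eq_mul] at h2
  exact h2

lemma Kop_nonneg (v : ℕ → ℕ → ℕ) (j : ℕ) (w : ℕ → ℕ → ℝ) (C : ℝ)
    (hw : ∀ k M, ∑ n ∈ Finset.range M, |w k n| ≤ C) (hw0 : ∀ k n, 0 ≤ w k n) (f : XX (Om N))
    (hf : 0 ≤ f) : 0 ≤ Kop v j w C hw f := by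
  rw [nonneg_iff] at hf ⊢
  rintro ⟨k, i, hi⟩
  rw [← bl_eq k i hi, bl_Kop v j w C hw f k i (Nat.lt_succ_iff.1 hi)]
  unfold mact
  refine Finset.sum_nonneg fun c hc => ?_
  have hc' : c < N k + 1 := lt_of_lt_of_le (Finset.mem_range.1 hc) hi
  refine mul_nonneg ?_ ?_
  · split_ifs
    · exact hw0 _ _
    · exact le_rfl
  · show 0 ≤ bl k c f
    rw [bl_eq k c hc']
    exact hf _

/-- strong continuity in a parameter. -/
lemma continuous_Kop (v : ℕ → ℕ → ℕ) (j : ℕ) (w : ℝ → ℕ → ℕ → ℝ) (C : ℝ)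
    (hw : ∀ t k M, ∑ n ∈ Finset.range M, |w t k n| ≤ C)
    (hc : ∀ k n, Continuous (fun t => w t k n)) (f : XX (Om N)) :
    Continuous (fun t => Kop v j (w t) C (hw t) f) := by
  unfold Kop
  simp only [colOp_apply]
  refine continuous_tsum (u := fun q => |f q| * C) ?_ ((summable_abs f).mul_right C) ?_
  · intro q
    have h1 : Continuous (fun t => kcol v j (w t) q) := by
      unfold kcol
      refine continuous_finsetSum _ fun i' _ => ?_
      by_cases a : q.i ≤ i' ∧ v q.k i' = v q.k q.i + j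
      · simp only [if_pos a]
        exact (hc _ _).smul continuous_const
      · simp only [if_neg a]
        exact continuous_const
    exact h1.const_smul (f q)
  · intro q t
    rw [norm_smul, Real.norm_eq_abs]
    exact mul_le_mul_of_nonneg_left (norm_kcol_le v j (w t) (hw t) q) (abs_nonneg _)

end

end Pool.Agent.Q175.DP
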