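import Pool.Agent.Q175.DP.Semi

/-!
# The perturbation, the resolvent and the Dyson–Phillips terms of the chains
-/

open MeasureTheory Filter Topology

namespace Pool.Agent.Q175.DP

noncomputable section

variable (P : Par)

lemma Par.mem_dom {f : XX (Om P.N)} (hf : f ∈ (generator (P.K 0)).domain) :
    ∃ g, P.Form f g := by
  obtain ⟨g, hg⟩ := hf
  exact ⟨g, (P.genRel_iff f g).1 hg⟩

lemma Par.form_gen (f : (generator (P.K 0)).domain) :
    P.Form (f : XX (Om P.N)) (generator (P.K 0) f) :=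
  (P.genRel_iff _ _).1 (genRel_generator (P.K 0) f)

lemma Par.block_bact_le {f g : XX (Om P.N)} (h : P.Form f g) (k : ℕ) :
    ∑ i ∈ Finset.range (P.N k + 1), |P.m k * bact (P.v k) (fun i => bl k i f) i| ≤
      ∑ i ∈ Finset.range (P.N k + 1), |bl k i g| := by
  have h1 := sum_bact_le (P.hv k) (fun i => bl k i f) (P.N k)
  have h2 : ∑ i ∈ Finset.range (P.N k + 1), |P.m k * bact (P.v k) (fun i => bl k i f) i| =
      P.m k * ∑ i ∈ Finset.range (P.N k + 1), |bact (P.v k) (fun i => bl k i f) i| := by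
    rw [Finset.mul_sum]
    refine Finset.sum_congr rfl fun i _ => ?_
    rw [abs_mul, abs_of_pos (P.hm k)]
  have h3 : ∑ i ∈ Finset.range (P.N k + 1), |bl k i g| =
      P.m k * ∑ i ∈ Finset.range (P.N k + 1), |qact (P.v k) (fun i => bl k i f) i| := by
    rw [Finset.mul_sum]
    refine Finset.sum_congr rfl fun i hi => ?_
    rw [h k i (Nat.lt_succ_iff.1 (Finset.mem_range.1 hi)), abs_mul, abs_of_pos (P.hm k)]
  rw [h2, h3]
  refine mul_le_mul_of_nonneg_left ?_ (P.hm k).le
  have := abs_nonneg ((fun i => bl k i f) (P.N k) : ℝ)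
  linarith

lemma Par.summable_bact {f : XX (Om P.N)} (hf : f ∈ (generator (P.K 0)).domain) :
    Summable (fun k => ∑ i ∈ Finset.range (P.N k + 1),
      |P.m k * bact (P.v k) (fun i => bl k i f) i|) := by
  obtain ⟨g, hg⟩ := P.mem_dom hf
  refine Summable.of_nonneg_of_le (fun k => Finset.sum_nonneg fun _ _ => abs_nonneg _)
    (fun k => P.block_bact_le hg k) (summable_block g)

/-- unweighted perturbation. -/
def Par.B0 (f : (generator (P.K 0)).domain) : XX (Om P.N) :=
  ofSeq (fun k i => P.m k * bact (P.v k) (fun i => bl k i (f : XX (Om P.N))) i)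
    (P.summable_bact f.2)

lemma Par.bl_B0 (f : (generator (P.K 0)).domain) (k i : ℕ) (hi : i ≤ P.N k) :
    bl k i (P.B0 f) = P.m k * bact (P.v k) (fun i => bl k i (f : XX (Om P.N))) i :=
  bl_ofSeq _ _ k i hi

lemma bact_add (v : ℕ → ℕ) (x y : ℕ → ℝ) (i : ℕ) :
    bact v (fun i => x i + y i) i = bact v x i + bact v y i := by
  cases i with
  | zero => simp [bact]
  | succ i =>
    simp only [bact]
    split_ifs
    · rfl
    · ring

lemma bact_smul (v : ℕ → ℕ) (c : ℝ) (x : ℕ → ℝ) (i : ℕ) :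
    bact v (fun i => c * x i) i = c * bact v x i := by
  cases i with
  | zero => simp [bact]
  | succ i =>
    simp only [bact]
    split_ifs
    · rfl
    · ring

lemma bact_nonneg (v : ℕ → ℕ) (x : ℕ → ℝ) (hx : ∀ i, 0 ≤ x i) (i : ℕ) : 0 ≤ bact v x i := by
  cases i with
  | zero => simp [bact]
  | succ i =>
    simp only [bact]
    split_ifs
    · exact hx i
    · exact le_rfl

/-- the perturbation, scaled by `1/4`. -/
def Par.B : (generator (P.K 0)).domain →ₗ[ℝ] XX (Om P.N) where
  toFun f := (1 / 4 : ℝ) • P.B0 f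
  map_add' f g := by
    rw [← smul_add]
    congr 1
    apply bl_ext
    intro k i hi
    rw [map_add, P.bl_B0 _ k i hi, P.bl_B0 _ k i hi, P.bl_B0 _ k i hi, ← mul_add, ← bact_add]
    simp only [Submodule.coe_add, map_add]
  map_smul' c f := by
    rw [RingHom.id_apply, smul_comm c]
    congr 1
    apply bl_ext
    intro k i hi
    rw [map_smul, P.bl_B0 _ k i hi, P.bl_B0 _ k i hi, smul_eq_mul, mul_left_comm,
      ← bact_smul (P.v k) c]
    simp only [Submodule.coe_smul, map_smul, smul_eq_mul]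

lemma Par.bl_B (f : (generator (P.K 0)).domain) (k i : ℕ) (hi : i ≤ P.N k) :
    bl k i (P.B f) =
      1 / 4 * (P.m k * bact (P.v k) (fun i => bl k i (f : XX (Om P.N))) i) := by
  show bl k i ((1 / 4 : ℝ) • P.B0 f) = _
  rw [map_smul, smul_eq_mul, P.bl_B0 f k i hi]

lemma Par.norm_B_le (f : (generator (P.K 0)).domain) :
    ‖P.B f‖ ≤ 1 / 4 * ‖generator (P.K 0) f‖ := by
  show ‖(1 / 4 : ℝ) • P.B0 f‖ ≤ _
  rw [norm_smul, Real.norm_of_nonneg (by norm_num)]
  refine mul_le_mul_of_nonneg_left ?_ (by norm_num)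
  have h := norm_le_of_block (f := P.B0 f) (g := generator (P.K 0) f) (C := 1) (fun k => by
    rw [one_mul]
    refine le_trans (le_of_eq ?_) (P.block_bact_le (P.form_gen f) k)
    refine Finset.sum_congr rfl fun i hi => ?_
    rw [P.bl_B0 f k i (Nat.lt_succ_iff.1 (Finset.mem_range.1 hi))])
  rwa [one_mul] at h

lemma Par.B_nonneg (f : (generator (P.K 0)).domain) (hf : 0 ≤ (f : XX (Om P.N))) :
    0 ≤ P.B f := by
  rw [nonneg_iff] at hf ⊢
  rintro ⟨k, i, hi⟩
  rw [← bl_eq k i hi, P.bl_B f k i (Nat.lt_succ_iff.1 hi)]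
  refine mul_nonneg (by norm_num) (mul_nonneg (P.hm k).le (bact_nonneg _ _ ?_ _))
  intro c
  by_cases hc : c < P.N k + 1
  · rw [bl_eq k c hc]; exact hf _
  · unfold bl
    rw [dif_neg hc]
    simp

/-! ### the resolvent -/

/-- resolvent weights. -/
def rw' (l m : ℝ) (n : ℕ) : ℝ := m ^ n / (l + m) ^ (n + 1)

lemma rw'_sum {l m : ℝ} (hl : 0 < l) (hm : 0 < m) (M : ℕ) :
    ∑ n ∈ Finset.range M, |rw' l m n| ≤ 1 / l := by
  have h1 : ∀ n, |rw' l m n| = rw' l m n := fun n => abs_of_nonneg (by unfold rw'; positivity)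
  simp only [h1]
  have h2 : l * ∑ n ∈ Finset.range M, rw' l m n = 1 - (m / (l + m)) ^ M := by
    induction M with
    | zero => simp
    | succ M ih =>
      rw [Finset.sum_range_succ, mul_add, ih, rw', pow_succ (m / (l + m)) M, div_pow]
      have : l + m ≠ 0 := by positivity
      field_simp
      ring
  have h3 : 0 ≤ (m / (l + m)) ^ M := by positivity
  rw [le_div_iff₀ hl, mul_comm, h2]
  linarith

/-- the resolvent. -/
def Par.R (l : ℝ) (hl : 0 < l) : XX (Om P.N) →L[ℝ] XX (Om P.N) :=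
  Kop P.v 0 (fun k => rw' l (P.m k)) (1 / l) (fun k M => rw'_sum hl (P.hm k) M)

lemma Par.form_R (l : ℝ) (hl : 0 < l) (x : XX (Om P.N)) :
    P.Form (P.R l hl x) (l • P.R l hl x - x) := by
  intro k i' hi'
  have h1 : ∀ i ≤ i', bl k i (P.R l hl x) =
      mact 0 (P.v k) (rw' l (P.m k)) (fun i => bl k i x) i := fun i hi =>
    bl_Kop _ _ _ _ _ x k i (hi.trans hi')
  rw [qact_congr h1, map_sub, map_smul, smul_eq_mul, h1 i' le_rfl]
  have hlm : l + P.m k ≠ 0 := by have := P.hm k; positivity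
  have h2 := mact_res (P.hv k) (l := l) (m := P.m k) (w := rw' l (P.m k))
    (by unfold rw'; field_simp; ring) (fun n => by unfold rw'; field_simp; ring)
    (fun i => bl k i x) i'
  linarith

lemma Par.isResolvent (l : ℝ) (hl : 0 < l) :
    IsResolvent (generator (P.K 0)) l (P.R l hl) := by
  have key : ∀ x, GenRel (P.K 0) (P.R l hl x) (l • P.R l hl x - x) := fun x =>
    (P.genRel_iff _ _).2 (P.form_R l hl x)
  constructor
  · intro x
    refine ⟨⟨_, key x⟩, ?_⟩
    rw [generator_eq (P.K 0) ⟨P.R l hl x, ⟨_, key x⟩⟩ (key x)]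
    abel
  · intro φ
    have h1 := key (l • (φ : XX (Om P.N)) - generator (P.K 0) φ)
    have h2 := (genRel_generator (P.K 0) φ).smul (-1)
    have h3 := h1.add h2
    have h4 : P.Form (P.R l hl (l • (φ : XX (Om P.N)) - generator (P.K 0) φ) - (φ : XX (Om P.N)))
        (l • (P.R l hl (l • (φ : XX (Om P.N)) - generator (P.K 0) φ) - (φ : XX (Om P.N)))) := by
      rw [← P.genRel_iff]
      convert h3 using 1
      · rw [neg_smul, one_smul]; abel
      · rw [neg_smul, one_smul, smul_sub]; abel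
    rw [← sub_eq_zero]
    apply bl_ext
    intro k i hi
    rw [map_zero]
    refine res_inj (v := P.v k) (l := l) (m := P.m k) (by have := P.hm k; positivity)
      (fun i => bl k i (P.R l hl (l • (φ : XX (Om P.N)) - generator (P.K 0) φ) - (φ : XX (Om P.N)))) (P.N k)
      ?_ i hi
    intro i hi
    have := h4 k i hi
    rw [map_smul, smul_eq_mul] at this
    linarith

/-- `B (l - T)⁻¹`. -/
def Par.S (l : ℝ) (hl : 0 < l) : XX (Om P.N) →L[ℝ] XX (Om P.N) :=
  LinearMap.mkContinuous
    { toFun := fun x => P.B ⟨P.R l hl x, ((P.isResolvent l hl).1 x).1⟩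
      map_add' := fun x y => by
        rw [← map_add]
        congr 1
        ext1
        simp only [map_add, Submodule.coe_add]
      map_smul' := fun c x => by
        rw [RingHom.id_apply, ← map_smul]
        congr 1
        ext1
        simp only [map_smul, Submodule.coe_smul] } (1 / 2)
    (fun x => by
      show ‖P.B ⟨P.R l hl x, ((P.isResolvent l hl).1 x).1⟩‖ ≤ 1 / 2 * ‖x‖
      refine (P.norm_B_le _).trans ?_
      obtain ⟨h1, h2⟩ := (P.isResolvent l hl).1 x
      have h3 : generator (P.K 0) ⟨P.R l hl x, h1⟩ = l • P.R l hl x - x := by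
        rw [← sub_eq_zero]
        have := sub_eq_zero.2 h2
        rw [← neg_eq_zero, ← this]
        abel
      rw [h3]
      have h4 : ‖P.R l hl x‖ ≤ 1 / l * ‖x‖ := by
        refine ((P.R l hl).le_opNorm x).trans ?_
        exact mul_le_mul_of_nonneg_right (norm_Kop_le _ _ _ _ _) (norm_nonneg _)
      have h5 : ‖l • P.R l hl x - x‖ ≤ ‖x‖ + ‖x‖ := by
        refine (norm_sub_le _ _).trans ?_
        have h6 : ‖l • P.R l hl x‖ ≤ ‖x‖ := by
          rw [norm_smul, Real.norm_of_nonneg hl.le]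
          calc l * ‖P.R l hl x‖ ≤ l * (1 / l * ‖x‖) := mul_le_mul_of_nonneg_left h4 hl.le
            _ = ‖x‖ := by field_simp
        linarith
      linarith)

lemma Par.norm_S_le (l : ℝ) (hl : 0 < l) : ‖P.S l hl‖ ≤ 1 / 2 :=
  LinearMap.mkContinuous_norm_le _ (by norm_num) _

end

end Pool.Agent.Q175.DP
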