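import Mathlib

/-!
# Poisson weights
-/

open Filter Topology
open scoped Nat

namespace Pool.Agent.Q175.DP

noncomputable section

/-- The Poisson weight `e^{-x} x^n / n!`. -/
def poi (n : ℕ) (x : ℝ) : ℝ := Real.exp (-x) * (x ^ n / n !)

lemma poi_nonneg (n : ℕ) {x : ℝ} (hx : 0 ≤ x) : 0 ≤ poi n x := by
  unfold poi; positivity

lemma poi_zero_zero : poi 0 0 = 1 := by simp [poi]

lemma poi_succ_zero (n : ℕ) : poi (n + 1) 0 = 0 := by simp [poi]

lemma hasSum_poi (x : ℝ) : HasSum (fun n => poi n x) 1 := by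
  have h := NormedSpace.expSeries_div_hasSum_exp (𝔸 := ℝ) x
  rw [← Real.exp_eq_exp_ℝ] at h
  have h2 := h.mul_left (Real.exp (-x))
  rw [← Real.exp_add, neg_add_cancel, Real.exp_zero] at h2
  exact h2

lemma sum_poi_le (F : Finset ℕ) {x : ℝ} (hx : 0 ≤ x) : ∑ n ∈ F, poi n x ≤ 1 :=
  sum_le_hasSum F (fun n _ => poi_nonneg n hx) (hasSum_poi x)

lemma poi_le_one (n : ℕ) {x : ℝ} (hx : 0 ≤ x) : poi n x ≤ 1 := by
  simpa using sum_poi_le {n} hx

lemma succ_mul_poi (n : ℕ) (x : ℝ) : ((n : ℝ) + 1) * poi (n + 1) x = x * poi n x := by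
  unfold poi
  rw [Nat.factorial_succ]
  push_cast
  have h1 : ((n : ℝ) + 1) ≠ 0 := by positivity
  have h2 : ((n ! : ℕ) : ℝ) ≠ 0 := by positivity
  field_simp
  ring

lemma hasDerivAt_poi_zero (x : ℝ) : HasDerivAt (poi 0) (-poi 0 x) x := by
  unfold poi
  have h : HasDerivAt (fun x : ℝ => Real.exp (-x)) (-Real.exp (-x)) x := by
    have := (hasDerivAt_neg x).exp
    simpa using this
  simpa using h

lemma hasDerivAt_poi_succ (n : ℕ) (x : ℝ) :
    HasDerivAt (poi (n + 1)) (poi n x - poi (n + 1) x) x := by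
  have h : HasDerivAt (fun x : ℝ => Real.exp (-x)) (-Real.exp (-x)) x := by
    have := (hasDerivAt_neg x).exp
    simpa using this
  have h2 : HasDerivAt (fun x : ℝ => x ^ (n + 1) / ((n + 1) ! : ℝ))
      (((n + 1 : ℕ) : ℝ) * x ^ n / ((n + 1) ! : ℝ)) x := by
    have := (hasDerivAt_pow (n + 1) x).div_const ((n + 1) ! : ℝ)
    simpa using this
  have h3 := h.mul h2
  refine h3.congr_deriv ?_
  unfold poi
  rw [Nat.factorial_succ]
  push_cast
  have h1 : ((n : ℝ) + 1) ≠ 0 := by positivity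
  have h2 : ((n ! : ℕ) : ℝ) ≠ 0 := by positivity
  field_simp
  ring

lemma continuous_poi (n : ℕ) : Continuous (poi n) := by
  unfold poi
  fun_prop

lemma poi_conv (n : ℕ) (x y : ℝ) :
    ∑ l ∈ Finset.range (n + 1), poi l x * poi (n - l) y = poi n (x + y) := by
  unfold poi
  rw [neg_add, Real.exp_add, add_pow, Finset.sum_div, Finset.mul_sum]
  refine Finset.sum_congr rfl fun l hl => ?_
  have hl' : l ≤ n := Nat.lt_succ_iff.1 (Finset.mem_range.1 hl)
  have h1 : ((n.choose l : ℕ) : ℝ) = n ! / (l ! * (n - l)!) := by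
    rw [Nat.choose_eq_factorial_div_factorial hl', Nat.cast_div]
    · push_cast; rfl
    · exact Nat.factorial_mul_factorial_dvd_factorial hl'
    · positivity
  rw [h1]
  have h2 : ((l ! : ℕ) : ℝ) ≠ 0 := by positivity
  have h3 : (((n - l) ! : ℕ) : ℝ) ≠ 0 := by positivity
  have h4 : ((n ! : ℕ) : ℝ) ≠ 0 := by positivity
  field_simp

/-! ### second moment -/

lemma hasSum_var (x : ℝ) : HasSum (fun n : ℕ => ((n : ℝ) - x) ^ 2 * poi n x) x := by
  have h0 := hasSum_poi x
  have h1 : HasSum (fun n : ℕ => (n : ℝ) * poi n x) x := by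
    have h := h0.mul_left x
    have h2 : HasSum (fun n : ℕ => ((n + 1 : ℕ) : ℝ) * poi (n + 1) x) (x * 1) := by
      have e : (fun n : ℕ => ((n + 1 : ℕ) : ℝ) * poi (n + 1) x) = fun n => x * poi n x := by
        funext n
        rw [← succ_mul_poi]; push_cast; ring
      rw [e]; exact h
    have h3 := (hasSum_nat_add_iff (f := fun n : ℕ => (n : ℝ) * poi n x) 1).1 h2
    simpa using h3
  have h2 : HasSum (fun n : ℕ => (n : ℝ) * ((n : ℝ) - 1) * poi n x) (x * x) := by
    have h := h1.mul_left x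
    have h2 : HasSum (fun n : ℕ => ((n + 1 : ℕ) : ℝ) * (((n + 1 : ℕ) : ℝ) - 1) * poi (n + 1) x)
        (x * x) := by
      have e : (fun n : ℕ => ((n + 1 : ℕ) : ℝ) * (((n + 1 : ℕ) : ℝ) - 1) * poi (n + 1) x)
          = fun n : ℕ => x * ((n : ℝ) * poi n x) := by
        funext n
        have := succ_mul_poi n x
        push_cast
        show ((n : ℝ) + 1) * ((n : ℝ) + 1 - 1) * poi (n + 1) x = x * ((n : ℝ) * poi n x)
        calc ((n : ℝ) + 1) * ((n : ℝ) + 1 - 1) * poi (n + 1) x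
            = (n : ℝ) * (((n : ℝ) + 1) * poi (n + 1) x) := by ring
          _ = (n : ℝ) * (x * poi n x) := by rw [this]
          _ = x * ((n : ℝ) * poi n x) := by ring
      rw [e]; exact h
    have h3 := (hasSum_nat_add_iff
      (f := fun n : ℕ => (n : ℝ) * ((n : ℝ) - 1) * poi n x) 1).1 h2
    simpa using h3
  have h3 := ((h2.add h1).add (h1.mul_left (-2 * x))).add (h0.mul_left (x ^ 2))
  have e1 : x * x + x + -2 * x * x + x ^ 2 * 1 = x := by ring
  rw [e1] at h3
  have e2 : (fun n : ℕ => ((n : ℝ) - x) ^ 2 * poi n x) = fun n : ℕ =>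
      (n : ℝ) * ((n : ℝ) - 1) * poi n x + (n : ℝ) * poi n x + -2 * x * ((n : ℝ) * poi n x)
        + x ^ 2 * poi n x := by
    funext n
    ring
  rw [e2]
  exact h3

/-- Chebyshev: a finite set of integers at distance at least `d` from `x`. -/
lemma cheb {x d : ℝ} (hx : 0 ≤ x) (hd : 0 < d) (F : Finset ℕ)
    (hF : ∀ n ∈ F, d ≤ |(n : ℝ) - x|) : ∑ n ∈ F, poi n x ≤ x / d ^ 2 := by
  rw [le_div_iff₀ (by positivity), Finset.sum_mul]
  calc ∑ n ∈ F, poi n x * d ^ 2 ≤ ∑ n ∈ F, ((n : ℝ) - x) ^ 2 * poi n x := by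
        refine Finset.sum_le_sum fun n hn => ?_
        rw [mul_comm]
        refine mul_le_mul_of_nonneg_right ?_ (poi_nonneg n hx)
        rw [← sq_abs ((n : ℝ) - x)]
        exact pow_le_pow_left₀ hd.le (hF n hn) 2
    _ ≤ x := sum_le_hasSum F (fun n _ => mul_nonneg (sq_nonneg _) (poi_nonneg n hx)) (hasSum_var x)

/-- Chebyshev, lower bound: a finite set containing all integers at distance less than `d`. -/
lemma cheb' {x d : ℝ} (hx : 0 ≤ x) (hd : 0 < d) (F : Finset ℕ)
    (hF : ∀ n : ℕ, |(n : ℝ) - x| < d → n ∈ F) : 1 - x / d ^ 2 ≤ ∑ n ∈ F, poi n x := by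
  have h1 : ∀ G : Finset ℕ, ∑ n ∈ G, poi n x ≤ ∑ n ∈ F, poi n x + x / d ^ 2 := by
    intro G
    classical
    have h2 : ∑ n ∈ G \ F, poi n x ≤ x / d ^ 2 := by
      refine cheb hx hd _ ?_
      intro n hn
      rw [Finset.mem_sdiff] at hn
      by_contra hcon
      exact hn.2 (hF n (not_le.1 hcon))
    have h3 : ∑ n ∈ G, poi n x ≤ ∑ n ∈ F ∪ (G \ F), poi n x := by
      refine Finset.sum_le_sum_of_subset_of_nonneg ?_ fun n _ _ => poi_nonneg n hx
      intro n hn
      by_cases h : n ∈ F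
      · exact Finset.mem_union_left _ h
      · exact Finset.mem_union_right _ (Finset.mem_sdiff.2 ⟨hn, h⟩)
    rw [Finset.sum_union Finset.disjoint_sdiff] at h3
    linarith
  have h2 : (1 : ℝ) ≤ ∑ n ∈ F, poi n x + x / d ^ 2 := by
    rw [← (hasSum_poi x).tsum_eq]
    exact (hasSum_poi x).summable.tsum_le_of_sum_le h1
  linarith

/-! ### the largest weight -/

lemma poi_le_stirling (n : ℕ) (hn : 0 < n) {x : ℝ} (hx : 0 ≤ x) :
    poi n x ≤ 1 / √(2 * Real.pi * n) := by
  have hn' : (0 : ℝ) < n := by exact_mod_cast hn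
  have h1 := Stirling.le_factorial_stirling n
  have h2 : Real.exp (-x) * x ^ n ≤ (n / Real.exp 1) ^ n := by
    have h3 : x / n ≤ Real.exp (x / n - 1) := by
      have := Real.add_one_le_exp (x / n - 1)
      linarith
    have h4 : (x / n) ^ n ≤ Real.exp (x / n - 1) ^ n :=
      pow_le_pow_left₀ (by positivity) h3 n
    rw [← Real.exp_nat_mul] at h4
    have h5 : (n : ℝ) * (x / n - 1) = x - n := by field_simp
    rw [h5, Real.exp_sub, div_pow, div_le_div_iff₀ (by positivity) (by positivity)] at h4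
    rw [Real.exp_neg, div_pow, ← Real.exp_nat_mul, mul_one, inv_mul_le_iff₀ (Real.exp_pos x),
      ← mul_div_assoc, le_div_iff₀ (by positivity)]
    exact h4
  have h6 : 0 < √(2 * Real.pi * n) := by positivity
  unfold poi
  rw [← mul_div_assoc, div_le_div_iff₀ (by positivity) h6, one_mul]
  calc Real.exp (-x) * x ^ n * √(2 * Real.pi * n)
      ≤ (n / Real.exp 1) ^ n * √(2 * Real.pi * n) := by gcongr
    _ = √(2 * Real.pi * n) * (n / Real.exp 1) ^ n := mul_comm _ _
    _ ≤ n ! := h1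

lemma poi_small {ε : ℝ} (hε : 0 < ε) : ∀ᶠ x : ℝ in atTop, ∀ n, poi n x ≤ ε := by
  obtain ⟨K, hK⟩ := exists_nat_gt (1 / ε ^ 2)
  have hK0 : (0 : ℝ) < K := lt_trans (by positivity) hK
  have h1 : ∀ᶠ x : ℝ in atTop, ∀ n ∈ Finset.range K, poi n x ≤ ε := by
    rw [Filter.eventually_all_finset]
    intro n _
    have h := (Real.tendsto_pow_mul_exp_neg_atTop_nhds_zero n).div_const (n ! : ℝ)
    rw [zero_div] at h
    filter_upwards [h.eventually (gt_mem_nhds hε)] with x hx
    unfold poi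
    refine le_of_eq_of_le ?_ hx.le
    ring
  filter_upwards [h1, eventually_ge_atTop 0] with x hx hx0 n
  by_cases hn : n < K
  · exact hx n (Finset.mem_range.2 hn)
  · push Not at hn
    have hn0 : 0 < n := lt_of_lt_of_le (by exact_mod_cast hK0) hn
    refine (poi_le_stirling n hn0 hx0).trans ?_
    rw [div_le_iff₀ (by positivity)]
    have h2 : 1 / ε ≤ √(2 * Real.pi * n) := by
      apply Real.le_sqrt_of_sq_le
      have h3 : (1 / ε) ^ 2 < n := by
        rw [div_pow, one_pow]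
        exact lt_of_lt_of_le hK (by exact_mod_cast hn)
      have h4 : (1 : ℝ) ≤ 2 * Real.pi := by
        have := Real.pi_gt_three; linarith
      have h5 : (0 : ℝ) ≤ n := by positivity
      nlinarith
    rw [div_le_iff₀ hε] at h2
    linarith

end

end Pool.Agent.Q175.DP
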