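import Pool.Agent.Q175.DP.Ops
import Pool.Agent.Q175.DP.Defs

/-!
# The semigroup of the chains with levels, its generator and its resolvent
-/

open MeasureTheory Filter Topology

namespace Pool.Agent.Q175.DP

noncomputable section

/-- Parameters of a family of finite chains with levels. -/
structure Par where
  /-- last state of block `k` -/
  N : ℕ → ℕ
  /-- rate of block `k` -/
  m : ℕ → ℝ
  /-- level function of block `k` -/
  v : ℕ → ℕ → ℕ
  hm : ∀ k, 0 < m k
  hv : ∀ k, IsLevel (v k)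

variable (P : Par)

lemma pw_sum_le {x : ℝ} (hx : 0 ≤ x) (M : ℕ) : ∑ n ∈ Finset.range M, |pw x n| ≤ 1 := by
  have h : ∑ n ∈ Finset.range M, |pw x n| = ∑ n ∈ Finset.range M, poi n x :=
    Finset.sum_congr rfl fun n _ => abs_of_nonneg (poi_nonneg n hx)
  rw [h]
  exact sum_poi_le _ hx

lemma Par.arg_nonneg (k : ℕ) (t : ℝ) : 0 ≤ P.m k * max t 0 :=
  mul_nonneg (P.hm k).le (le_max_right _ _)

/-- the operators with `j` level jumps (unweighted). -/
def Par.K (j : ℕ) (t : ℝ) : XX (Om P.N) →L[ℝ] XX (Om P.N) :=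
  Kop P.v j (fun k => pw (P.m k * max t 0)) 1 (fun k M => pw_sum_le (P.arg_nonneg k t) M)

lemma Par.bl_K (j : ℕ) {t : ℝ} (ht : 0 ≤ t) (f : XX (Om P.N)) (k i' : ℕ) (hi' : i' ≤ P.N k) :
    bl k i' (P.K j t f) = mact j (P.v k) (pw (P.m k * t)) (fun i => bl k i f) i' := by
  unfold Par.K
  rw [bl_Kop _ _ _ _ _ _ _ _ hi', max_eq_left ht]

lemma Par.norm_K_le (j : ℕ) (t : ℝ) : ‖P.K j t‖ ≤ 1 := norm_Kop_le _ _ _ _ _

lemma Par.K_nonneg (j : ℕ) (t : ℝ) (f : XX (Om P.N)) (hf : 0 ≤ f) : 0 ≤ P.K j t f :=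
  Kop_nonneg _ _ _ _ _ (fun k n => poi_nonneg n (P.arg_nonneg k t)) f hf

lemma Par.continuous_K (j : ℕ) (f : XX (Om P.N)) : Continuous (fun t => P.K j t f) := by
  unfold Par.K
  refine continuous_Kop P.v j (fun t k => pw (P.m k * max t 0)) 1
    (fun t k M => pw_sum_le (P.arg_nonneg k t) M) ?_ f
  intro k n
  unfold pw
  exact (continuous_poi n).comp (by fun_prop)

lemma Par.K_zero_zero : P.K 0 0 = ContinuousLinearMap.id ℝ _ := by
  ext1 f
  apply bl_ext
  intro k i hi
  rw [P.bl_K 0 le_rfl f k i hi, mul_zero, mact_pw_zero]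
  rfl

lemma Par.K_succ_zero (j : ℕ) : P.K (j + 1) 0 = 0 := by
  ext1 f
  apply bl_ext
  intro k i hi
  rw [P.bl_K (j + 1) le_rfl f k i hi, mul_zero, mact_succ_pw_zero]
  simp

lemma Par.K_add (s t : ℝ) (hs : 0 ≤ s) (ht : 0 ≤ t) :
    P.K 0 (s + t) = (P.K 0 s).comp (P.K 0 t) := by
  ext1 f
  apply bl_ext
  intro k i' hi'
  rw [P.bl_K 0 (add_nonneg hs ht) f k i' hi', ContinuousLinearMap.comp_apply,
    P.bl_K 0 hs _ k i' hi']
  have h1 : mact 0 (P.v k) (pw (P.m k * s)) (fun i => bl k i (P.K 0 t f)) i' =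
      mact 0 (P.v k) (pw (P.m k * s))
        (mact 0 (P.v k) (pw (P.m k * t)) (fun i => bl k i f)) i' :=
    mact_congr fun i hi => P.bl_K 0 ht f k i (hi.trans hi')
  rw [h1]
  refine (mact_mact_zero (P.hv k) _ _ _ _ (fun n => ?_) i').symm
  unfold pw
  rw [poi_conv]
  congr 1
  ring

lemma Par.isC0 : IsC0 (P.K 0) where
  zero := P.K_zero_zero
  add := fun s t hs ht => P.K_add s t hs ht
  cont := fun x => (P.continuous_K 0 x).continuousOn

/-- `g` is formally the image of `f` under the generator. -/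
def Par.Form (f g : XX (Om P.N)) : Prop :=
  ∀ k, ∀ i ≤ P.N k, bl k i g = P.m k * qact (P.v k) (fun i => bl k i f) i

lemma qact_congr {v : ℕ → ℕ} {x y : ℕ → ℝ} {i' : ℕ} (h : ∀ i ≤ i', x i = y i) :
    qact v x i' = qact v y i' := by
  cases i' with
  | zero => simp only [qact]; rw [h 0 le_rfl]
  | succ i => simp only [qact]; rw [h (i + 1) le_rfl, h i (Nat.le_succ i)]

lemma bact_congr {v : ℕ → ℕ} {x y : ℕ → ℝ} {i' : ℕ} (h : ∀ i ≤ i', x i = y i) :
    bact v x i' = bact v y i' := by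
  cases i' with
  | zero => rfl
  | succ i => simp only [bact]; rw [h i (Nat.le_succ i)]

lemma continuous_mact (j : ℕ) (v : ℕ → ℕ) {a : ℝ → ℝ} (ha : Continuous a) (x : ℕ → ℝ) (i' : ℕ) :
    Continuous (fun s => mact j v (pw (a s)) x i') := by
  unfold mact
  refine continuous_finsetSum _ fun i _ => ?_
  by_cases c : v i' = v i + j
  · simp only [if_pos c]
    exact ((continuous_poi _).comp ha).mul continuous_const
  · simp only [if_neg c]
    exact continuous_const

/-- `U(t)f - f = ∫₀ᵗ U(s) g ds` -/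
lemma Par.sub_eq_integral {f g : XX (Om P.N)} (h : P.Form f g) {t : ℝ} (ht : 0 ≤ t) :
    P.K 0 t f - f = ∫ s in (0 : ℝ)..t, P.K 0 s g := by
  apply bl_ext
  intro k i' hi'
  rw [← ContinuousLinearMap.intervalIntegral_comp_comm _
    ((P.continuous_K 0 g).intervalIntegrable _ _), map_sub, P.bl_K 0 ht f k i' hi']
  have h1 : ∀ s ∈ Set.uIcc (0 : ℝ) t, HasDerivAt
      (fun s => mact 0 (P.v k) (pw (P.m k * s)) (fun i => bl k i f) i')
      (mact 0 (P.v k) (pw (P.m k * s)) (fun i => bl k i g) i') s := by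
    intro s _
    refine (hasDerivAt_semi (P.hv k) (P.m k) s (fun i => bl k i f) i').congr_deriv ?_
    exact mact_congr fun i hi => (h k i (hi.trans hi')).symm
  have h2 : ∀ s ∈ Set.uIcc (0 : ℝ) t, bl k i' (P.K 0 s g) =
      mact 0 (P.v k) (pw (P.m k * s)) (fun i => bl k i g) i' := by
    intro s hs
    rw [Set.uIcc_of_le ht] at hs
    exact P.bl_K 0 hs.1 g k i' hi'
  rw [intervalIntegral.integral_congr h2]
  have h3 : IntervalIntegrable
      (fun s => mact 0 (P.v k) (pw (P.m k * s)) (fun i => bl k i g) i') volume 0 t :=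
    (continuous_mact 0 (P.v k) (by fun_prop) _ i').intervalIntegrable _ _
  rw [intervalIntegral.integral_eq_sub_of_hasDerivAt h1 h3, mul_zero, mact_pw_zero]

lemma Par.genRel_iff (f g : XX (Om P.N)) : GenRel (P.K 0) f g ↔ P.Form f g := by
  constructor
  · intro h k i' hi'
    have h1 : Tendsto (fun h : ℝ => bl k i' (h⁻¹ • (P.K 0 h f - f))) (𝓝[>] 0)
        (𝓝 (bl k i' g)) := ((bl k i').continuous.tendsto g).comp h
    have h2 := (hasDerivAt_semi (P.hv k) (P.m k) 0 (fun i => bl k i f) i')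
    rw [hasDerivAt_iff_tendsto_slope_zero] at h2
    have h3 := h2.mono_left (nhdsGT_le_nhdsNE (0 : ℝ))
    have h4 := tendsto_nhds_unique_of_eventuallyEq h1 h3 (by
      filter_upwards [self_mem_nhdsWithin] with t ht
      have ht' : (0 : ℝ) ≤ t := le_of_lt ht
      rw [map_smul, map_sub, P.bl_K 0 ht' f k i' hi', zero_add, mul_zero, mact_pw_zero])
    rw [h4, mul_zero, mact_pw_zero]
  · intro h
    unfold GenRel
    have h1 : HasDerivAt (fun t => ∫ s in (0 : ℝ)..t, P.K 0 s g) (P.K 0 0 g) 0 :=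
      intervalIntegral.integral_hasDerivAt_right
        ((P.continuous_K 0 g).intervalIntegrable _ _)
        ((P.continuous_K 0 g).stronglyMeasurableAtFilter _ _)
        (P.continuous_K 0 g).continuousAt
    rw [hasDerivAt_iff_tendsto_slope_zero] at h1
    have h3 := h1.mono_left (nhdsGT_le_nhdsNE (0 : ℝ))
    rw [P.K_zero_zero, ContinuousLinearMap.id_apply] at h3
    refine h3.congr' ?_
    filter_upwards [self_mem_nhdsWithin] with t ht
    have ht' : (0 : ℝ) ≤ t := le_of_lt ht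
    rw [P.sub_eq_integral h ht', zero_add, intervalIntegral.integral_same, sub_zero]

end

end Pool.Agent.Q175.DP
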